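import Mathlib

/-!
# Matching of bases compatible with a graph and with coordinate subspaces (helper550)
-/

set_option autoImplicit false

namespace Run7.h550.IP

/-- `b` is dominated by `a` -/
def Dom {I κ : Type} (E : I → I → Prop) (S : κ → Set I) (b a : I) : Prop :=
  (∀ c, E b c → c ≠ a → E a c) ∧ ∀ k, b ∈ S k → a ∈ S k

section

variable {I κ : Type} {E : I → I → Prop} {S : κ → Set I}

theorem Dom.refl (a : I) : Dom E S a a := ⟨fun _ h _ => h, fun _ h => h⟩

theorem Dom.trans (hs : ∀ a b, E a b → E b a) {a b c : I} (h1 : Dom E S a b) (h2 : Dom E S b c) :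
    Dom E S a c := by
  refine ⟨fun d hd hdc => ?_, fun k hk => h2.2 k (h1.2 k hk)⟩
  by_cases hdb : d = b
  · subst hdb
    by_cases hac : a = c
    · subst hac
      exact hd
    · have h3 := h2.1 a (hs _ _ hd) hac
      exact hs _ _ (h1.1 c (hs _ _ h3) (Ne.symm hdc))
  · exact h2.1 d (h1.1 d hd hdb) hdc

/-- equivalent indices -/
def equ (hs : ∀ a b, E a b → E b a) : Setoid I where
  r a b := Dom E S a b ∧ Dom E S b a
  iseqv := ⟨fun a => ⟨Dom.refl a, Dom.refl a⟩, fun h => ⟨h.2, h.1⟩,
    fun h1 h2 => ⟨h1.1.trans hs h2.1, h2.2.trans hs h1.2⟩⟩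

end

theorem exists_match {I J κ : Type} [Fintype I] [Fintype J] [DecidableEq I] [DecidableEq J]
    (E : I → I → Prop) (E' : J → J → Prop) (S : κ → Set I) (S' : κ → Set J)
    (hs : ∀ a b, E a b → E b a) (hi : ∀ a, ¬ E a a)
    (hi' : ∀ a, ¬ E' a a)
    (M : I → J → ℤ) (M' : J → I → ℤ)
    (h1 : ∀ a b, ∑ j, M a j * M' j b = if a = b then 1 else 0)
    (h2 : ∀ j k, ∑ a, M' j a * M a k = if j = k then 1 else 0)
    (g1 : ∀ j k, E' j k → ∀ a b, a ≠ b → ¬ E a b → M a j * M b k = M b j * M a k)
    (g2 : ∀ a b, E a b → ∀ j k, j ≠ k → ¬ E' j k → M' j a * M' k b = M' k a * M' j b)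
    (s1 : ∀ k, ∀ j ∈ S' k, ∀ a, a ∉ S k → M a j = 0)
    (s2 : ∀ k, ∀ a ∈ S k, ∀ j, j ∉ S' k → M' j a = 0) :
    ∃ σ : J ≃ I, (∀ j k, E' j k → E (σ j) (σ k)) ∧ ∀ k, ∀ j ∈ S' k, σ j ∈ S k := by
  classical
  -- the first claim
  have c1 : ∀ a b j, M a j ≠ 0 → M' j b ≠ 0 → Dom E S b a := by
    intro a b j ha hb
    refine ⟨fun c hbc hca => ?_, fun k hk => ?_⟩
    · by_contra hac
      have hab : a ≠ b := by
        rintro rfl
        exact hac hbc
      have hcb : c ≠ b := by
        rintro rfl
        exact hi _ hbc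
      have key : ∑ l, (M' j b * M' l c - M' l b * M' j c) * (M a j * M c l - M c j * M a l) = 0 := by
        refine Finset.sum_eq_zero fun l _ => ?_
        by_cases hjl : j = l
        · subst hjl
          ring
        · by_cases hE : E' j l
          · rw [g1 j l hE a c (Ne.symm hca) hac]
            ring
          · rw [g2 b c hbc j l hjl hE]
            ring
      have e2 : ∑ l, (M' j b * M' l c - M' l b * M' j c) * (M a j * M c l - M c j * M a l) =
          M' j b * M a j * (∑ l, M c l * M' l c) - M' j b * M c j * (∑ l, M a l * M' l c)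
          - M' j c * M a j * (∑ l, M c l * M' l b) + M' j c * M c j * (∑ l, M a l * M' l b) := by
        rw [Finset.mul_sum, Finset.mul_sum, Finset.mul_sum, Finset.mul_sum,
          ← Finset.sum_sub_distrib, ← Finset.sum_sub_distrib, ← Finset.sum_add_distrib]
        exact Finset.sum_congr rfl fun l _ => by ring
      rw [h1, h1, h1, h1, if_pos rfl, if_neg (Ne.symm hca), if_neg hcb, if_neg hab, key] at e2
      have e3 : M' j b * M a j = 0 := by linarith
      rcases mul_eq_zero.1 e3 with e4 | e4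
      · exact hb e4
      · exact ha e4
    · by_contra hak
      by_cases hj : j ∈ S' k
      · exact ha (s1 k j hj a hak)
      · exact hb (s2 k b hk j hj)
  -- the map `p`
  have c2 : ∀ j, ∃ a, M a j ≠ 0 ∧ M' j a ≠ 0 := by
    intro j
    by_contra hcon
    push Not at hcon
    have h3 := h2 j j
    rw [if_pos rfl] at h3
    have h4 : ∑ a, M' j a * M a j = 0 := Finset.sum_eq_zero fun a _ => by
      by_cases h5 : M a j = 0
      · rw [h5, mul_zero]
      · rw [hcon a h5, zero_mul]
    rw [h4] at h3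
    exact zero_ne_one h3
  choose p hp hp' using c2
  have c3 : ∀ j a, M a j ≠ 0 → M' j a ≠ 0 → Dom E S a (p j) ∧ Dom E S (p j) a := fun j a ha ha' =>
    ⟨c1 _ _ j (hp j) ha', c1 _ _ j ha (hp' j)⟩
  -- the sums over the classes
  obtain ⟨st, hst⟩ : ∃ st : Setoid I, ∀ a b, st a b ↔ Dom E S a b ∧ Dom E S b a :=
    ⟨equ (S := S) hs, fun _ _ => Iff.rfl⟩
  let q : I → Quotient st := Quotient.mk st
  have hq : ∀ a b, q a = q b ↔ Dom E S a b ∧ Dom E S b a := fun a b => by
    rw [← hst]
    exact Quotient.eq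
  have c4 : ∀ j (C : Quotient st), ∑ a ∈ Finset.univ.filter (fun a => q a = C), M a j * M' j a =
      if q (p j) = C then 1 else 0 := by
    intro j C
    by_cases hC : q (p j) = C
    · rw [if_pos hC]
      have h3 := h2 j j
      rw [if_pos rfl] at h3
      rw [← h3]
      have h4 : ∑ a ∈ Finset.univ.filter (fun a => q a = C), M a j * M' j a =
          ∑ a, M a j * M' j a := by
        refine Finset.sum_subset (Finset.subset_univ _) fun a _ ha => ?_
        by_contra hcon
        have h5 : M a j ≠ 0 := left_ne_zero_of_mul hcon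
        have h6 : M' j a ≠ 0 := right_ne_zero_of_mul hcon
        apply ha
        rw [Finset.mem_filter]
        exact ⟨Finset.mem_univ _, hC ▸ (hq _ _).2 (c3 j a h5 h6)⟩
      rw [h4]
      exact Finset.sum_congr rfl fun a _ => mul_comm _ _
    · rw [if_neg hC]
      refine Finset.sum_eq_zero fun a ha => ?_
      by_contra hcon
      have h5 : M a j ≠ 0 := left_ne_zero_of_mul hcon
      have h6 : M' j a ≠ 0 := right_ne_zero_of_mul hcon
      rw [Finset.mem_filter] at ha
      apply hC
      rw [← ha.2]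
      exact ((hq _ _).2 (c3 j a h5 h6)).symm
  have c5 : ∀ C : Quotient st, (Finset.univ.filter (fun j => q (p j) = C)).card =
      (Finset.univ.filter (fun a => q a = C)).card := by
    intro C
    have h3 : ∑ a ∈ Finset.univ.filter (fun a => q a = C), ∑ j, M a j * M' j a =
        ((Finset.univ.filter (fun a => q a = C)).card : ℤ) := by
      rw [Finset.sum_congr rfl (fun a _ => by rw [h1, if_pos rfl]), Finset.sum_const,
        nsmul_eq_mul, mul_one]
    rw [Finset.sum_comm, Finset.sum_congr rfl (fun j _ => c4 j C), Finset.sum_boole] at h3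
    exact_mod_cast h3
  have c6 : ∀ C : Quotient st, Nonempty ({j : J // q (p j) = C} ≃ {a : I // q a = C}) := by
    intro C
    refine ⟨Fintype.equivOfCardEq ?_⟩
    rw [Fintype.card_subtype, Fintype.card_subtype]
    exact c5 C
  let σ : J ≃ I := Equiv.ofFiberEquiv (f := fun j => q (p j)) (g := q) fun C => (c6 C).some
  have hσ : ∀ j, q (σ j) = q (p j) := fun j => Equiv.ofFiberEquiv_map _ j
  have hσ' : ∀ j, Dom E S (σ j) (p j) ∧ Dom E S (p j) (σ j) := fun j => (hq _ _).1 (hσ j)
  refine ⟨σ, fun j k hjk => ?_, fun k j hj => ?_⟩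
  · have hjk' : j ≠ k := by
      rintro rfl
      exact hi' _ hjk
    have hne : σ j ≠ σ k := fun e => hjk' (σ.injective e)
    by_cases hC : q (p j) = q (p k)
    · by_contra hnE
      have hpc := (hq _ _).1 hC
      -- no edges in the class
      have n1 : ∀ a b, q a = q (p j) → q b = q (p j) → ¬ E a b := by
        intro a b ha hb hab
        apply hnE
        have ha1 : Dom E S a (σ j) := ((hq _ _).1 (ha.trans (hσ j).symm)).1
        have ha2 : Dom E S a (σ k) := ((hq _ _).1 ((ha.trans hC).trans (hσ k).symm)).1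
        have hb2 : Dom E S b (σ k) := ((hq _ _).1 ((hb.trans hC).trans (hσ k).symm)).1
        by_cases hbj : b = σ j
        · subst hbj
          exact hs _ _ (ha2.1 _ hab hne)
        · have h3 := hs _ _ (ha1.1 b hab hbj)
          exact hs _ _ (hb2.1 _ h3 hne)
      have n2 : ∀ a b, q a = q (p j) → q b = q (p j) → M a j * M b k = M b j * M a k := by
        intro a b ha hb
        by_cases hab : a = b
        · subst hab
          ring
        · exact g1 j k hjk a b hab (n1 a b ha hb)
      have n3 : ∑ b ∈ Finset.univ.filter (fun b => q b = q (p j)), M' j b * M b k = 0 := by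
        have h3 := h2 j k
        rw [if_neg hjk'] at h3
        rw [← h3]
        refine Finset.sum_subset (Finset.subset_univ _) fun b _ hb => ?_
        by_contra hcon
        have h5 : M' j b ≠ 0 := left_ne_zero_of_mul hcon
        have h6 : M b k ≠ 0 := right_ne_zero_of_mul hcon
        apply hb
        rw [Finset.mem_filter]
        refine ⟨Finset.mem_univ _, (hq _ _).2 ⟨c1 _ _ j (hp j) h5, ?_⟩⟩
        exact hpc.1.trans hs (c1 _ _ k h6 (hp' k))
      have n4 := c4 j (q (p j))
      rw [if_pos rfl] at n4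
      have n5 : M (p k) k = 0 := by
        have h3 : M (p k) k * ∑ a ∈ Finset.univ.filter (fun a => q a = q (p j)), M a j * M' j a =
            M (p k) j * ∑ b ∈ Finset.univ.filter (fun b => q b = q (p j)), M' j b * M b k := by
          rw [Finset.mul_sum, Finset.mul_sum]
          refine Finset.sum_congr rfl fun b hb => ?_
          rw [Finset.mem_filter] at hb
          have h4 := n2 (p k) b hC.symm hb.2
          calc M (p k) k * (M b j * M' j b) = (M b j * M (p k) k) * M' j b := by ring
            _ = (M (p k) j * M b k) * M' j b := by rw [h4]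
            _ = M (p k) j * (M' j b * M b k) := by ring
        rw [n4, n3, mul_one, mul_zero] at h3
        exact h3
      exact hp k n5
    · have h3 : E (p j) (p k) := by
        by_contra hnE
        have hab : p j ≠ p k := fun e => hC (by rw [e])
        have h4 := g1 j k hjk (p j) (p k) hab hnE
        have h5 : M (p k) j * M (p j) k ≠ 0 := by
          rw [← h4]
          exact mul_ne_zero (hp j) (hp k)
        exact hC ((hq _ _).2 ⟨c1 _ _ j (left_ne_zero_of_mul h5) (hp' j),
          c1 _ _ k (right_ne_zero_of_mul h5) (hp' k)⟩)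
      have h4 : p k ≠ σ j := fun e => hC (by rw [e]; exact (hσ j).symm)
      have h5 := (hσ' j).2.1 _ h3 h4
      exact hs _ _ ((hσ' k).2.1 _ (hs _ _ h5) hne)
  · have h3 : p j ∈ S k := by
      by_contra hcon
      exact hp j (s1 k j hj _ hcon)
    exact (hσ' j).2.2 k h3

theorem surj_fin {α : Type} [Finite α] {π : α → α} (hπ : Function.Injective π) {X : Set α}
    (hX : Set.MapsTo π X X) {x : α} (hx : x ∈ X) : ∃ a ∈ X, π a = x := by
  have h1 : π '' X = X := by
    refine Set.eq_of_subset_of_ncard_le ?_ ?_ (Set.toFinite X)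
    · rintro _ ⟨a, ha, rfl⟩
      exact hX ha
    · rw [Set.ncard_image_of_injective X hπ]
  rw [← h1] at hx
  exact hx

/-- both directions -/
theorem exists_match' {I J κ : Type} [Fintype I] [Fintype J] [DecidableEq I] [DecidableEq J]
    (E : I → I → Prop) (E' : J → J → Prop) (S : κ → Set I) (S' : κ → Set J)
    (hs : ∀ a b, E a b → E b a) (hi : ∀ a, ¬ E a a) (hs' : ∀ a b, E' a b → E' b a)
    (hi' : ∀ a, ¬ E' a a)
    (M : I → J → ℤ) (M' : J → I → ℤ)
    (h1 : ∀ a b, ∑ j, M a j * M' j b = if a = b then 1 else 0)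
    (h2 : ∀ j k, ∑ a, M' j a * M a k = if j = k then 1 else 0)
    (g1 : ∀ j k, E' j k → ∀ a b, a ≠ b → ¬ E a b → M a j * M b k = M b j * M a k)
    (g2 : ∀ a b, E a b → ∀ j k, j ≠ k → ¬ E' j k → M' j a * M' k b = M' k a * M' j b)
    (s1 : ∀ k, ∀ j ∈ S' k, ∀ a, a ∉ S k → M a j = 0)
    (s2 : ∀ k, ∀ a ∈ S k, ∀ j, j ∉ S' k → M' j a = 0) :
    ∃ σ : J ≃ I, (∀ j k, E' j k ↔ E (σ j) (σ k)) ∧ ∀ k j, j ∈ S' k ↔ σ j ∈ S k := by
  classical
  obtain ⟨σ, hσ, hσS⟩ := exists_match E E' S S' hs hi hi' M M' h1 h2 g1 g2 s1 s2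
  obtain ⟨τ, hτ, hτS⟩ := exists_match E' E S' S hs' hi' hi M' M h2 h1 g2 g1 s2 s1
  refine ⟨σ, fun j k => ⟨hσ j k, fun h => ?_⟩, fun k j => ⟨hσS k j, fun h => ?_⟩⟩
  · -- the permutation `σ τ` of the pairs
    let π : I × I → I × I := fun x => (σ (τ x.1), σ (τ x.2))
    have hπ : Function.Injective π := by
      rintro ⟨a, b⟩ ⟨c, d⟩ hx
      have h3 := congrArg Prod.fst hx
      have h4 := congrArg Prod.snd hx
      exact Prod.ext (τ.injective (σ.injective h3)) (τ.injective (σ.injective h4))
    let X : Set (I × I) := {x | E x.1 x.2}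
    have hX : Set.MapsTo π X X := fun x hx => hσ _ _ (hτ _ _ hx)
    obtain ⟨⟨a, b⟩, hab, e⟩ := surj_fin hπ hX (show (σ j, σ k) ∈ X from h)
    have e1 : σ (τ a) = σ j := congrArg Prod.fst e
    have e2 : σ (τ b) = σ k := congrArg Prod.snd e
    rw [← σ.injective e1, ← σ.injective e2]
    exact hτ _ _ hab
  · let π : I → I := fun x => σ (τ x)
    have hπ : Function.Injective π := fun a b hab => τ.injective (σ.injective hab)
    have hX : Set.MapsTo π (S k) (S k) := fun x hx => hσS k _ (hτS k _ hx)
    obtain ⟨a, ha, e⟩ := surj_fin hπ hX h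
    rw [← σ.injective e]
    exact hτS k _ ha

end Run7.h550.IP
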