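import Pool.Agent.Run7.h550.IP.Heis
import Pool.Agent.Run7.h550.IP.Lin

/-!
# Two decompositions of a group as a graph product are isomorphic (helper550)
-/

set_option autoImplicit false

namespace Run7.h550.IP

open Run7.h550.TK Run7.h550.PK

theorem cyc_not_fa {H : Type} [Group H] (h : Cyc H) : ¬ FA H := by
  intro hfa
  obtain ⟨e⟩ := h
  have h1 := fa_int hfa e.toMonoidHom (e.symm (Multiplicative.ofAdd 1))
  have h2 : e (e.symm (Multiplicative.ofAdd 1)) = 1 := h1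
  rw [e.apply_symm_apply] at h2
  exact absurd (congrArg Multiplicative.toAdd h2) (by simp)

variable {N V W : Type} [Group N] {Γ : SimpleGraph V} {Λ : SimpleGraph W} {A : V → Subgroup N}
  {B : W → Subgroup N}

theorem eq_of_conj (h : IsGraphProduct Γ A) (hne : ∀ v, A v ≠ ⊥) {u v : V} {c : N}
    (hc : ∀ x ∈ A u, c⁻¹ * x * c ∈ A v) : u = v := by
  have h1 : ({u} : Set V) ⊆ {v} := by
    refine sub_of_conj h.pairSystem hne (c := c) fun x hx => ?_
    rw [NS_single] at hx ⊢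
    exact hc x hx
  exact h1 rfl

/-- the generator of an infinite cyclic group -/
noncomputable def gn {H : Subgroup N} (e : H ≃* Multiplicative ℤ) : N :=
  (e.symm (Multiplicative.ofAdd 1) : H)

theorem gn_mem {H : Subgroup N} (e : H ≃* Multiplicative ℤ) : gn e ∈ H :=
  (e.symm (Multiplicative.ofAdd 1)).2

/-- expansion of the exponents of one decomposition by those of the other -/
theorem expand [Finite W] (hA : IsGraphProduct Γ A) (hB : IsGraphProduct Λ B)
    (hBm : ∀ w, Rig (B w) ∨ Cyc (B w)) (v : V) (e : A v ≃* Multiplicative ℤ)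
    {J : Type} [Fintype J] (ι : J → W) (hι : Function.Injective ι)
    (hJ : ∀ w, (∃ j, ι j = w) ∨ Rig (B w)) (e' : ∀ j, B (ι j) ≃* Multiplicative ℤ) (x : N) :
    (expo hA v e x).toAdd =
      ∑ j, (expo hA v e (gn (e' j))).toAdd * (expo hB (ι j) (e' j) x).toAdd := by
  classical
  let R : N →* Multiplicative ℤ :=
    { toFun := fun x => Multiplicative.ofAdd
        (∑ j, (expo hA v e (gn (e' j))).toAdd * (expo hB (ι j) (e' j) x).toAdd)
      map_one' := by simp
      map_mul' := fun x y => by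
        rw [← ofAdd_add, ← Finset.sum_add_distrib]
        congr 1
        refine Finset.sum_congr rfl fun j _ => ?_
        rw [map_mul, toAdd_mul, mul_add] }
  have key : ∀ x, expo hA v e x = R x := by
    refine gp_ext hB fun w x hx => ?_
    have hr : ∀ f : N →* Multiplicative ℤ, Rig (B w) → f x = 1 := fun f hw =>
      fa_int hw.1 (f.comp (B w).subtype) ⟨x, hx⟩
    rcases hJ w with ⟨j, rfl⟩ | hw
    · -- a power of the generator
      have h1 : ∃ n : ℤ, x = gn (e' j) ^ n := by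
        refine ⟨(e' j ⟨x, hx⟩).toAdd, ?_⟩
        have h2 : (⟨x, hx⟩ : B (ι j)) = ((e' j).symm (Multiplicative.ofAdd 1)) ^
            (e' j ⟨x, hx⟩).toAdd := by
          apply (e' j).injective
          rw [map_zpow, (e' j).apply_symm_apply, ← ofAdd_zsmul]
          simp
        have h3 := congrArg Subtype.val h2
        rw [Subgroup.coe_zpow] at h3
        exact h3
      obtain ⟨n, rfl⟩ := h1
      rw [map_zpow, map_zpow]
      congr 1
      change _ = Multiplicative.ofAdd (∑ i, (expo hA v e (gn (e' i))).toAdd *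
        (expo hB (ι i) (e' i) (gn (e' j))).toAdd)
      rw [Finset.sum_eq_single j]
      · have h4 : expo hB (ι j) (e' j) (gn (e' j)) = Multiplicative.ofAdd 1 := by
          have h5 := expo_self hB (e' j) ((e' j).symm (Multiplicative.ofAdd 1))
          rw [(e' j).apply_symm_apply] at h5
          exact h5
        rw [h4]
        simp
      · intro i _ hij
        rw [expo_other hB (e' i) (fun e1 => hij (hι e1.symm)) (gn_mem (e' j))]
        simp
      · intro h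
        exact absurd (Finset.mem_univ j) h
    · rw [hr _ hw, hr _ hw]
  exact congrArg Multiplicative.toAdd (key x)

/-- conjugate vertex groups have the same adjacencies -/
theorem adj_conj (hA : IsGraphProduct Γ A) (hB : IsGraphProduct Λ B) (hBne : ∀ w, B w ≠ ⊥)
    {u v : V} {u' v' : W} {g g' : N} (hu : ∀ x, x ∈ A u ↔ g⁻¹ * x * g ∈ B u')
    (hv : ∀ x, x ∈ A v ↔ g'⁻¹ * x * g' ∈ B v') (hfa : FA (B u')) (hne : u' ≠ v')
    (h : Γ.Adj u v) : Λ.Adj u' v' := by
  refine adj_of_comm hB hBne hne hfa (g := g⁻¹ * g') fun b hb b' hb' => ?_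
  have h1 : g * b * g⁻¹ ∈ A u := by
    rw [hu]
    have : g⁻¹ * (g * b * g⁻¹) * g = b := by group
    rwa [this]
  have h2 : g' * b' * g'⁻¹ ∈ A v := by
    rw [hv]
    have : g'⁻¹ * (g' * b' * g'⁻¹) * g' = b' := by group
    rwa [this]
  have h3 := hA.comm u v h _ h1 _ h2
  have h4 : b * (g⁻¹ * g' * b' * (g⁻¹ * g')⁻¹) = g⁻¹ * (g * b * g⁻¹ * (g' * b' * g'⁻¹)) * g := by
    group
  rw [h4, h3]
  group

/-- the components of the elements which commute with a conjugate vertex group -/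
theorem expo_zero (hB : IsGraphProduct Λ B) (hBne : ∀ w, B w ≠ ⊥) {u w : W} {H : Subgroup N}
    {g : N} (hu : ∀ x, x ∈ H ↔ g⁻¹ * x * g ∈ B u) (hfa : FA (B u)) (e : B w ≃* Multiplicative ℤ)
    (huw : u ≠ w) (hadj : ¬ Λ.Adj u w) {x : N} (hx : ∀ a ∈ H, a * x = x * a) :
    expo hB w e x = 1 := by
  have h1 : expo hB w e (g⁻¹ * x * g) = 1 := by
    refine expo_eq_one hB e (cent_zero hB hBne huw hadj hfa fun b hb => ?_)
    have h2 : g * b * g⁻¹ ∈ H := by
      rw [hu]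
      have : g⁻¹ * (g * b * g⁻¹) * g = b := by group
      rwa [this]
    have h3 := hx _ h2
    have h4 : b * (g⁻¹ * x * g) = g⁻¹ * (g * b * g⁻¹ * x) * g := by group
    rw [h4, h3]
    group
  rw [map_mul, map_mul, map_inv, mul_comm (expo hB w e g)⁻¹, mul_assoc, inv_mul_cancel,
    mul_one] at h1
  exact h1

theorem inv_conj {P Q : Subgroup N} {g : N} (h : ∀ x, x ∈ P ↔ g⁻¹ * x * g ∈ Q) :
    ∀ x, x ∈ Q ↔ g⁻¹⁻¹ * x * g⁻¹ ∈ P := by
  intro x
  rw [h]
  have : g⁻¹ * (g⁻¹⁻¹ * x * g⁻¹) * g = x := by group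
  rw [this]

theorem conj_comp {P Q R : Subgroup N} {g k : N} (h : ∀ x, x ∈ P ↔ g⁻¹ * x * g ∈ Q)
    (h' : ∀ x, x ∈ Q ↔ k⁻¹ * x * k ∈ R) : ∀ x, x ∈ P ↔ (g * k)⁻¹ * x * (g * k) ∈ R := by
  intro x
  rw [h, h']
  have : k⁻¹ * (g⁻¹ * x * g) * k = (g * k)⁻¹ * x * (g * k) := by group
  rw [this]

/-- **the decomposition as a graph product is unique** -/
theorem gp_match [Finite V] [Finite W] (hA : IsGraphProduct Γ A) (hB : IsGraphProduct Λ B)
    (hAm : ∀ v, Rig (A v) ∨ Cyc (A v)) (hBm : ∀ w, Rig (B w) ∨ Cyc (B w))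
    (hAne : ∀ v, A v ≠ ⊥) (hBne : ∀ w, B w ≠ ⊥) :
    ∃ σ : V ≃ W, (∀ u v, Γ.Adj u v ↔ Λ.Adj (σ u) (σ v)) ∧ ∀ v, Nonempty (A v ≃* B (σ v)) := by
  classical
  have := Fintype.ofFinite V
  have := Fintype.ofFinite W
  -- the rigid vertices
  have hex : ∀ v : {v : V // Rig (A v)}, ∃ (w : {w : W // Rig (B w)}) (g : N),
      ∀ x, x ∈ A v ↔ g⁻¹ * x * g ∈ B w := by
    rintro ⟨v, hv⟩
    obtain ⟨w, g, hw, hg⟩ := two_rigid hA hB hAm hBm hAne hBne hv
    exact ⟨⟨w, hw⟩, g, hg⟩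
  have hex' : ∀ w : {w : W // Rig (B w)}, ∃ (v : {v : V // Rig (A v)}) (g : N),
      ∀ x, x ∈ B w ↔ g⁻¹ * x * g ∈ A v := by
    rintro ⟨w, hw⟩
    obtain ⟨v, g, hv, hg⟩ := two_rigid hB hA hBm hAm hBne hAne hw
    exact ⟨⟨v, hv⟩, g, hg⟩
  choose π G hπ using hex
  have hinj : Function.Injective π := by
    intro u v huv
    apply Subtype.ext
    have h1 := hπ u
    rw [huv] at h1
    exact eq_of_conj hA hAne fun x hx => (conj_comp h1 (inv_conj (hπ v)) x).1 hx
  have hsurj : Function.Surjective π := by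
    intro w
    obtain ⟨v, g, hg⟩ := hex' w
    refine ⟨v, ?_⟩
    apply Subtype.ext
    exact (eq_of_conj hB hBne fun x hx => (conj_comp hg (hπ v) x).1 hx).symm
  obtain ⟨π', hπ'⟩ : ∃ π' : {v : V // Rig (A v)} ≃ {w : W // Rig (B w)}, ∀ v, π' v = π v :=
    ⟨Equiv.ofBijective π ⟨hinj, hsurj⟩, fun _ => rfl⟩
  -- the infinite cyclic vertices
  have hcA : ∀ z : {v : V // ¬ Rig (A v)}, Nonempty (A z ≃* Multiplicative ℤ) := fun z =>
    (hAm z).resolve_left z.2
  have hcB : ∀ z : {w : W // ¬ Rig (B w)}, Nonempty (B z ≃* Multiplicative ℤ) := fun z =>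
    (hBm z).resolve_left z.2
  let eA : ∀ z : {v : V // ¬ Rig (A v)}, A z ≃* Multiplicative ℤ := fun z => (hcA z).some
  let eB : ∀ z : {w : W // ¬ Rig (B w)}, B z ≃* Multiplicative ℤ := fun z => (hcB z).some
  have hJA : ∀ v, (∃ j : {v : V // ¬ Rig (A v)}, (j : V) = v) ∨ Rig (A v) := by
    intro v
    by_cases hv : Rig (A v)
    · exact Or.inr hv
    · exact Or.inl ⟨⟨v, hv⟩, rfl⟩
  have hJB : ∀ w, (∃ j : {w : W // ¬ Rig (B w)}, (j : W) = w) ∨ Rig (B w) := by
    intro v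
    by_cases hv : Rig (B v)
    · exact Or.inr hv
    · exact Or.inl ⟨⟨v, hv⟩, rfl⟩
  have gA : ∀ z z' : {v : V // ¬ Rig (A v)}, (expo hA z (eA z) (gn (eA z'))).toAdd =
      if z = z' then 1 else 0 := by
    intro z z'
    by_cases hz : z = z'
    · subst hz
      rw [if_pos rfl]
      have h5 := expo_self hA (eA z) ((eA z).symm (Multiplicative.ofAdd 1))
      rw [(eA z).apply_symm_apply] at h5
      exact congrArg Multiplicative.toAdd h5
    · rw [if_neg hz, expo_other hA (eA z) (fun e => hz (Subtype.ext e.symm)) (gn_mem (eA z'))]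
      rfl
  have gB : ∀ z z' : {w : W // ¬ Rig (B w)}, (expo hB z (eB z) (gn (eB z'))).toAdd =
      if z = z' then 1 else 0 := by
    intro z z'
    by_cases hz : z = z'
    · subst hz
      rw [if_pos rfl]
      have h5 := expo_self hB (eB z) ((eB z).symm (Multiplicative.ofAdd 1))
      rw [(eB z).apply_symm_apply] at h5
      exact congrArg Multiplicative.toAdd h5
    · rw [if_neg hz, expo_other hB (eB z) (fun e => hz (Subtype.ext e.symm)) (gn_mem (eB z'))]
      rfl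
  obtain ⟨σ0, h1, h2⟩ := exists_match' (I := {v : V // ¬ Rig (A v)}) (J := {w : W // ¬ Rig (B w)})
    (κ := {v : V // Rig (A v)}) (fun a b => Γ.Adj a b) (fun a b => Λ.Adj a b)
    (fun v => {z | Γ.Adj v z}) (fun v => {z | Λ.Adj (π v) z})
    (fun a b h => h.symm) (fun a h => h.ne rfl) (fun a b h => h.symm) (fun a h => h.ne rfl)
    (fun z w => (expo hA z (eA z) (gn (eB w))).toAdd)
    (fun w z => (expo hB w (eB w) (gn (eA z))).toAdd)
    (by
      intro a b
      rw [← gA a b]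
      exact (expand hA hB hBm a (eA a) (fun j : {w : W // ¬ Rig (B w)} => (j : W))
        Subtype.val_injective hJB eB (gn (eA b))).symm)
    (by
      intro a b
      rw [← gB a b]
      exact (expand hB hA hAm a (eB a) (fun j : {v : V // ¬ Rig (A v)} => (j : V))
        Subtype.val_injective hJA eA (gn (eB b))).symm)
    (by
      intro j k hjk a b hab hadj
      exact heis hA (fun e => hab (Subtype.ext e)) hadj (eA a) (eA b)
        (hB.comm _ _ hjk _ (gn_mem (eB j)) _ (gn_mem (eB k))))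
    (by
      intro j k hjk a b hab hadj
      exact heis hB (fun e => hab (Subtype.ext e)) hadj (eB a) (eB b)
        (hA.comm _ _ hjk _ (gn_mem (eA j)) _ (gn_mem (eA k))))
    (by
      intro v j hj a ha
      have h3 : expo hA a (eA a) (gn (eB j)) = 1 := by
        refine expo_zero hA hAne (inv_conj (hπ v)) v.2.1 (eA a) (fun e => ?_) ha fun b hb =>
          hB.comm _ _ hj _ hb _ (gn_mem (eB j))
        exact a.2 (e ▸ v.2)
      rw [h3]
      rfl)
    (by
      intro v a ha j hj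
      have h3 : expo hB j (eB j) (gn (eA a)) = 1 := by
        refine expo_zero hB hBne (hπ v) (π v).2.1 (eB j) (fun e => ?_) hj fun b hb =>
          hA.comm _ _ ha _ hb _ (gn_mem (eA a))
        exact j.2 (e ▸ (π v).2)
      rw [h3]
      rfl)
  obtain ⟨σ, hσ⟩ : ∃ σ : V ≃ W, σ = (Equiv.sumCompl (fun v : V => Rig (A v))).symm.trans
      ((Equiv.sumCongr π' σ0.symm).trans (Equiv.sumCompl (fun w : W => Rig (B w)))) := ⟨_, rfl⟩
  have hσr : ∀ v : {v : V // Rig (A v)}, σ v = π v := by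
    intro v
    rw [hσ]
    simp [hπ']
  have hσz : ∀ v : {v : V // ¬ Rig (A v)}, σ v = σ0.symm v := by
    intro v
    rw [hσ]
    simp [Equiv.sumCompl_symm_apply_of_neg v.2]
  have hrr : ∀ u v : {v : V // Rig (A v)}, Γ.Adj u v ↔ Λ.Adj (σ u) (σ v) := by
    intro u v
    rw [hσr, hσr]
    constructor
    · intro h
      exact adj_conj hA hB hBne (hπ u) (hπ v) (π u).2.1 (fun e => h.ne (congrArg Subtype.val
        (hinj (Subtype.ext e)))) h
    · intro h
      refine adj_conj hB hA hAne (inv_conj (hπ u)) (inv_conj (hπ v)) u.2.1 (fun e => ?_) h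
      apply h.ne
      rw [Subtype.ext e]
  have hrz : ∀ (u : {v : V // Rig (A v)}) (z : {v : V // ¬ Rig (A v)}),
      Γ.Adj u z ↔ Λ.Adj (σ u) (σ z) := by
    intro u z
    rw [hσr, hσz]
    have h3 := h2 u (σ0.symm z)
    rw [σ0.apply_symm_apply] at h3
    exact h3.symm
  have hzz : ∀ (u z : {v : V // ¬ Rig (A v)}), Γ.Adj u z ↔ Λ.Adj (σ u) (σ z) := by
    intro u z
    rw [hσz, hσz]
    have h3 := h1 (σ0.symm u) (σ0.symm z)
    rw [σ0.apply_symm_apply, σ0.apply_symm_apply] at h3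
    exact h3.symm
  refine ⟨σ, fun u v => ?_, fun v => ?_⟩
  · by_cases hu : Rig (A u)
    · by_cases hv : Rig (A v)
      · exact hrr ⟨u, hu⟩ ⟨v, hv⟩
      · exact hrz ⟨u, hu⟩ ⟨v, hv⟩
    · by_cases hv : Rig (A v)
      · rw [Γ.adj_comm, Λ.adj_comm]
        exact hrz ⟨v, hv⟩ ⟨u, hu⟩
      · exact hzz ⟨u, hu⟩ ⟨v, hv⟩
  · by_cases hv : Rig (A v)
    · have h3 := hπ ⟨v, hv⟩
      have h4 : σ v = π ⟨v, hv⟩ := hσr ⟨v, hv⟩
      rw [h4]
      refine ⟨MulEquiv.mk' ⟨fun x => ⟨(G ⟨v, hv⟩)⁻¹ * x * G ⟨v, hv⟩, (h3 x).1 x.2⟩,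
        fun y => ⟨G ⟨v, hv⟩ * y * (G ⟨v, hv⟩)⁻¹, (h3 _).2 ?_⟩, fun x => ?_, fun y => ?_⟩ ?_⟩
      · have : (G ⟨v, hv⟩)⁻¹ * (G ⟨v, hv⟩ * (y : N) * (G ⟨v, hv⟩)⁻¹) * G ⟨v, hv⟩ = y := by group
        rw [this]
        exact y.2
      · apply Subtype.ext
        change G ⟨v, hv⟩ * ((G ⟨v, hv⟩)⁻¹ * (x : N) * G ⟨v, hv⟩) * (G ⟨v, hv⟩)⁻¹ = x
        group
      · apply Subtype.ext
        change (G ⟨v, hv⟩)⁻¹ * (G ⟨v, hv⟩ * (y : N) * (G ⟨v, hv⟩)⁻¹) * G ⟨v, hv⟩ = y
        group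
      · intro x y
        apply Subtype.ext
        change (G ⟨v, hv⟩)⁻¹ * ((x : N) * y) * G ⟨v, hv⟩ =
          ((G ⟨v, hv⟩)⁻¹ * x * G ⟨v, hv⟩) * ((G ⟨v, hv⟩)⁻¹ * y * G ⟨v, hv⟩)
        group
    · have h4 : σ v = σ0.symm ⟨v, hv⟩ := hσz ⟨v, hv⟩
      rw [h4]
      exact ⟨(eA ⟨v, hv⟩).trans (eB (σ0.symm ⟨v, hv⟩)).symm⟩

end Run7.h550.IP
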