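import Pool.Agent.Run7.h550.IP.Code
import Pool.Agent.Run7.h550.IP.Match
import Pool.Agent.Q32.DP.SEARCH

/-!
# The isomorphism problem for graph products (helper550)
-/

set_option autoImplicit false

namespace Run7.h550.IP

open Pool.Agent.Q223.IS Pool.Agent.Q32.DP Pool.Agent.Q32.DP.PROD2 Pool.Agent.Q32.DP.ALG
open Pool.Agent.Helper926
open Run7.h550.TK (IsGraphProduct FA Indec Centreless)

/-- the presentation of the infinite cyclic group -/
def z0 : Pres := (1, [])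

theorem z0_cyc : Cyc (PG z0) := by
  obtain ⟨F, hF⟩ := PG_lift z0 (fun i => if i = 0 then Multiplicative.ofAdd (1 : ℤ) else 1)
    (fun i hi => if_neg (by
      have h1 : 1 ≤ i := hi
      omega)) (fun w hw => absurd hw List.not_mem_nil)
  refine ⟨MonoidHom.toMulEquiv F (zpowersHom _ (gen z0 0)) ?_ ?_⟩
  · apply PG_ext
    intro i
    change (zpowersHom _ (gen z0 0)) (F (gen z0 i)) = gen z0 i
    rw [hF]
    by_cases h : i = 0
    · subst h
      rw [if_pos rfl]
      simp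
    · rw [if_neg h, map_one, gen_big z0 (show 1 ≤ i by omega)]
  · apply MonoidHom.ext_mint
    change F (zpowersHom _ (gen z0 0) (Multiplicative.ofAdd 1)) = Multiplicative.ofAdd 1
    simp only [zpowersHom_apply, toAdd_ofAdd, zpow_one]
    rw [hF, if_pos rfl]

theorem indec_of {G : Type} [Group G] (h : Indecomposable G) : Indec G := by
  intro P Q hsup hinf hcomm
  let F : P × Q →* G := MonoidHom.noncommCoprod P.subtype Q.subtype (fun a b =>
    hcomm a a.2 b b.2)
  have hF : ∀ p, F p = (p.1 : G) * (p.2 : G) := fun p => rfl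
  have hb : Function.Bijective F := by
    constructor
    · rw [injective_iff_map_eq_one]
      rintro ⟨⟨a, ha⟩, ⟨b, hb⟩⟩ hab
      rw [hF] at hab
      have h1 : a * b = 1 := hab
      have h2 : a = b⁻¹ := eq_inv_of_mul_eq_one_left h1
      have h3 : a ∈ P ⊓ Q := ⟨ha, h2 ▸ Q.inv_mem hb⟩
      rw [hinf, Subgroup.mem_bot] at h3
      subst h3
      rw [one_mul] at h1
      subst h1
      rfl
    · rw [← MonoidHom.range_eq_top, eq_top_iff, ← hsup]
      refine sup_le (fun y hy => ?_) (fun y hy => ?_)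
      · exact ⟨(⟨y, hy⟩, 1), by rw [hF]; exact mul_one y⟩
      · exact ⟨(1, ⟨y, hy⟩), by rw [hF]; exact one_mul y⟩
  rcases h.2 P Q ⟨(MulEquiv.ofBijective F hb).symm⟩ with h1 | h1
  · left
    rw [eq_bot_iff]
    intro x hx
    exact congrArg Subtype.val (h1 ⟨x, hx⟩)
  · right
    rw [eq_bot_iff]
    intro x hx
    exact congrArg Subtype.val (h1 ⟨x, hx⟩)

theorem rig_equiv {G H : Type} [Group G] [Group H] (e : G ≃* H) (h : Rig G) : Rig H :=
  ⟨Run7.h550.TK.fa_equiv e h.1, Run7.h550.TK.centreless_equiv e h.2.1,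
    Run7.h550.TK.indec_equiv e h.2.2⟩

/-- the hypotheses on the class -/
def Hyp (C : Pres → Prop) : Prop :=
  ∀ k, C k → FA (PG k) ∧ Centerless (PG k) ∧ Indecomposable (PG k)

theorem Hyp.rig {C : Pres → Prop} (h : Hyp C) {k : Pres} (hk : C k) : Rig (PG k) :=
  ⟨(h k hk).1, (h k hk).2.1, indec_of (h k hk).2.2⟩

/-- the presentations of graph products of groups in `C` and infinite cyclic groups -/
def GProds (C : Pres → Prop) (p : Pres) : Prop :=
  ∃ (V : Type) (_ : Finite V) (Γ : SimpleGraph V) (A : V → Subgroup (PG p)),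
    IsGraphProduct Γ A ∧
    ∀ v, (∃ k, C k ∧ Nonempty (A v ≃* PG k)) ∨ Nonempty (A v ≃* Multiplicative ℤ)

/-- the class with the infinite cyclic group -/
def Cp (C : Pres → Prop) (k : Pres) : Prop := C k ∨ k = z0

/-- certified non-isomorphism in `Cp C` -/
def Ne (C : Pres → Prop) (f : Pres × Pres →. Bool) (x : Pres × Pres) : Prop :=
  ((C x.1 ∧ C x.2) ∧ false ∈ f x) ∨ ((x.1 = z0 ∧ C x.2) ∨ (C x.1 ∧ x.2 = z0))

theorem ne_sound {C : Pres → Prop} (h : Hyp C) {f : Pres × Pres →. Bool}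
    (hf : ∀ a b, C a → C b → (Nonempty (PG a ≃* PG b) → true ∈ f (a, b)) ∧
      (¬ Nonempty (PG a ≃* PG b) → false ∈ f (a, b))) {a b : Pres} (hab : Ne C f (a, b)) :
    ¬ Nonempty (PG a ≃* PG b) := by
  rintro ⟨e⟩
  rcases hab with ⟨⟨ha, hb⟩, h1⟩ | ⟨ha, hb⟩ | ⟨ha, hb⟩
  · have := Part.mem_unique ((hf a b ha hb).1 ⟨e⟩) h1
    exact absurd this (by simp)
  · have ha' : a = z0 := ha
    subst ha'
    obtain ⟨c⟩ := z0_cyc
    exact cyc_not_fa ⟨e.symm.trans c⟩ (h.rig hb).1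
  · have hb' : b = z0 := hb
    subst hb'
    obtain ⟨c⟩ := z0_cyc
    exact cyc_not_fa ⟨e.trans c⟩ (h.rig ha).1

theorem ne_compl {C : Pres → Prop} {f : Pres × Pres →. Bool}
    (hf : ∀ a b, C a → C b → (Nonempty (PG a ≃* PG b) → true ∈ f (a, b)) ∧
      (¬ Nonempty (PG a ≃* PG b) → false ∈ f (a, b))) {a b : Pres} (ha : Cp C a) (hb : Cp C b)
    (hab : ¬ Nonempty (PG a ≃* PG b)) : Ne C f (a, b) := by
  rcases ha with ha | ha
  · rcases hb with hb | hb
    · exact Or.inl ⟨⟨ha, hb⟩, (hf a b ha hb).2 hab⟩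
    · exact Or.inr (Or.inr ⟨ha, hb⟩)
  · rcases hb with hb | hb
    · exact Or.inr (Or.inl ⟨ha, hb⟩)
    · exfalso
      apply hab
      rw [ha, hb]
      exact ⟨MulEquiv.refl _⟩

/-- all maps -/
def allM (m : ℕ) : ℕ → List (List ℕ)
  | 0 => [[]]
  | n + 1 => (allM m n).flatMap (fun l => (List.range m).map (fun i => i :: l))

theorem mem_allM (m : ℕ) : ∀ (n : ℕ) (s : List ℕ), s ∈ allM m n ↔ s.length = n ∧ ∀ x ∈ s, x < m := by
  intro n
  induction n with
  | zero =>
    intro s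
    constructor
    · intro h
      have h1 : s = [] := by simpa [allM] using h
      subst h1
      simp
    · rintro ⟨h, -⟩
      rw [List.eq_nil_of_length_eq_zero h]
      simp [allM]
  | succ n ih =>
    intro s
    constructor
    · intro h
      obtain ⟨l, hl, h⟩ := List.mem_flatMap.1 h
      obtain ⟨i, hi, rfl⟩ := List.mem_map.1 h
      obtain ⟨h1, h2⟩ := (ih l).1 hl
      refine ⟨by rw [List.length_cons, h1], fun x hx => ?_⟩
      rcases List.mem_cons.1 hx with rfl | hx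
      · exact List.mem_range.1 hi
      · exact h2 x hx
    · rintro ⟨h1, h2⟩
      cases s with
      | nil => simp at h1
      | cons i l =>
        refine List.mem_flatMap.2 ⟨l, (ih l).2 ⟨by simpa using h1, fun x hx =>
          h2 x (List.mem_cons_of_mem _ hx)⟩, List.mem_map.2 ⟨i, List.mem_range.2 (h2 i (by simp)),
          rfl⟩⟩

theorem allM_pr {α : Type} [Primcodable α] {m n : α → ℕ} (hm : Primrec m) (hn : Primrec n) :
    Primrec fun x => allM (m x) (n x) := by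
  have h1 : Primrec fun x : α => (n x).rec (motive := fun _ => List (List ℕ)) [[]]
      fun _ IH => IH.flatMap (fun l => (List.range (m x)).map (fun i => i :: l)) := by
    refine Primrec.nat_rec' (β := List (List ℕ)) (h := fun x (y : ℕ × List (List ℕ)) =>
      y.2.flatMap (fun l => (List.range (m x)).map (fun i => i :: l))) hn (Primrec.const _) ?_
    refine Primrec.list_flatMap (Primrec.snd.comp Primrec.snd) ?_
    show Primrec fun z : (α × (ℕ × List (List ℕ))) × List ℕ =>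
      (List.range (m z.1.1)).map (fun i => i :: z.2)
    refine Primrec.list_map (Primrec.list_range.comp
      (hm.comp (Primrec.fst.comp Primrec.fst))) ?_
    show Primrec fun w : ((α × (ℕ × List (List ℕ))) × List ℕ) × ℕ => w.2 :: w.1.2
    exact Primrec.list_cons.comp Primrec.snd (Primrec.snd.comp Primrec.fst)
  refine h1.of_eq fun x => ?_
  induction n x with
  | zero => rfl
  | succ k ih =>
    simp only [allM]
    rw [← ih]

/-- edges of the list -/
def ad (E : List (ℕ × ℕ)) (i j : ℕ) : Prop := (i, j) ∈ E ∨ (j, i) ∈ E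

/-- the list `s` is not an isomorphism of the graphs -/
def Bad (z z' : Dat) (s : List ℕ) : Prop :=
  z.2.1.length ≠ z'.2.1.length ∨ ∃ i j : ℕ, (i < z.2.1.length ∧ j < z.2.1.length) ∧
    ((i ≠ j ∧ s.getD i 0 = s.getD j 0) ∨
      ((ad z.2.2 i j ∧ ((s.getD i 0, s.getD j 0) ∉ z'.2.2 ∧ (s.getD j 0, s.getD i 0) ∉ z'.2.2)) ∨
      (((i, j) ∉ z.2.2 ∧ (j, i) ∉ z.2.2) ∧ ad z'.2.2 (s.getD i 0) (s.getD j 0))))

/-- a certificate of non-isomorphism -/
def NN (C : Pres → Prop) (f : Pres × Pres →. Bool) (x : (Pres × Pres) × (Dat × Dat)) : Prop :=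
  ((Good x.2.1 ∧ Good x.2.2) ∧ ((∀ k ∈ x.2.1.2.1, Cp C k) ∧ ∀ k ∈ x.2.2.2.1, Cp C k)) ∧
    ((IsoP (x.1.1, GPc x.2.1) ∧ IsoP (x.1.2, GPc x.2.2)) ∧
      ∀ s ∈ allM x.2.2.2.1.length x.2.1.2.1.length, Bad x.2.1 x.2.2 s ∨
        ∃ i, i < x.2.1.2.1.length ∧ Ne C f (kk x.2.1.2.1 i, kk x.2.2.2.1 (s.getD i 0)))

theorem kk_get (L : List Pres) (i : Fin L.length) : kk L i = L.get i := by
  unfold kk
  rw [List.getD_eq_getElem _ _ i.2]
  rfl

/-- the vertex groups of coded graph products -/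
theorem vert {C : Pres → Prop} (hC : Hyp C) {L : List Pres} (hL : ∀ k ∈ L, Cp C k)
    {N : Type} [Group N] {A : Fin L.length → Subgroup N}
    (hA : ∀ i, Nonempty (A i ≃* PG (L.get i))) :
    (∀ i, Rig (A i) ∨ Cyc (A i)) ∧ ∀ i, A i ≠ ⊥ := by
  have h1 : ∀ i, (C (L.get i)) ∨ Cyc (A i) := by
    intro i
    rcases hL _ (List.get_mem L i) with h | h
    · exact Or.inl h
    · right
      obtain ⟨e⟩ := hA i
      rw [h] at e
      obtain ⟨c⟩ := z0_cyc
      exact ⟨e.trans c⟩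
  refine ⟨fun i => ?_, fun i => ?_⟩
  · rcases h1 i with h | h
    · obtain ⟨e⟩ := hA i
      exact Or.inl (rig_equiv e.symm (hC.rig h))
    · exact Or.inr h
  · rcases h1 i with h | h
    · intro hb
      obtain ⟨g, hg⟩ := (hC _ h).2.2.1
      obtain ⟨e⟩ := hA i
      apply hg
      apply e.symm.injective
      have : Subsingleton (A i) := by
        rw [hb]
        infer_instance
      exact Subsingleton.elim _ _
    · exact cyc_ne h

theorem ad_gr {z : Dat} (hz : Good z) (i j : Fin z.2.1.length) :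
    (gr z).Adj i j ↔ ad z.2.2 i j := by
  rw [gr_adj]
  refine ⟨fun h => h.2, fun h => ⟨?_, h⟩⟩
  rintro rfl
  rcases h with h | h
  · exact hz.2 _ h rfl
  · exact hz.2 _ h rfl

theorem nn_sound {C : Pres → Prop} (hC : Hyp C) {f : Pres × Pres →. Bool}
    (hf : ∀ a b, C a → C b → (Nonempty (PG a ≃* PG b) → true ∈ f (a, b)) ∧
      (¬ Nonempty (PG a ≃* PG b) → false ∈ f (a, b))) {p q : Pres} {z z' : Dat}
    (h : NN C f ((p, q), (z, z'))) : ¬ Nonempty (PG p ≃* PG q) := by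
  rintro ⟨e⟩
  obtain ⟨⟨⟨hz, hz'⟩, hL, hL'⟩, ⟨⟨e1⟩, ⟨e2⟩⟩, hall⟩ := h
  obtain ⟨e1⟩ := e1
  obtain ⟨e2⟩ := e2
  obtain ⟨A, hA, hAi⟩ := code_gp hz
  obtain ⟨A', hA', hAi'⟩ := code_gp hz'
  have e3 : PG (GPc z') ≃* PG (GPc z) := e2.symm.trans (e.symm.trans e1)
  have hB := gp_transport hA' e3
  have hBi : ∀ i, Nonempty ((A' i).map e3.toMonoidHom ≃* PG (z'.2.1.get i)) := fun i => by
    obtain ⟨c⟩ := hAi' i
    exact ⟨((A' i).equivMapOfInjective e3.toMonoidHom e3.injective).symm.trans c⟩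
  obtain ⟨m1, m2⟩ := vert hC hL hAi
  obtain ⟨m3, m4⟩ := vert hC hL' hBi
  obtain ⟨σ, s1, s2⟩ := gp_match hA hB m1 m3 m2 m4
  have hcard : z.2.1.length = z'.2.1.length := by
    have := Fintype.card_congr σ
    simpa using this
  have hget : ∀ i : Fin z.2.1.length, (List.ofFn (fun i => ((σ i : Fin _) : ℕ))).getD i 0 =
      (σ i : ℕ) := by
    intro i
    rw [List.getD_eq_getElem _ _ (by simp)]
    simp
  rcases hall (List.ofFn (fun i => ((σ i : Fin _) : ℕ))) ((mem_allM _ _ _).2 ⟨by simp, by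
    intro x hx
    rw [List.mem_ofFn] at hx
    obtain ⟨i, rfl⟩ := hx
    exact (σ i).2⟩) with h | ⟨i, hi, h⟩
  · rcases h with h | ⟨i, j, ⟨hi, hj⟩, h⟩
    · exact h hcard
    · have g1 := hget ⟨i, hi⟩
      have g2 := hget ⟨j, hj⟩
      simp only at g1 g2
      rw [g1, g2] at h
      rcases h with ⟨h3, h4⟩ | ⟨h3, h4, h5⟩ | ⟨⟨h3, h4⟩, h5⟩
      · exact h3 (congrArg Fin.val (σ.injective (Fin.ext h4)))
      · have h6 := (s1 ⟨i, hi⟩ ⟨j, hj⟩).1 ((ad_gr hz _ _).2 h3)
        rcases (ad_gr hz' _ _).1 h6 with h7 | h7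
        · exact h4 h7
        · exact h5 h7
      · have h6 := (s1 ⟨i, hi⟩ ⟨j, hj⟩).2 ((ad_gr hz' _ _).2 h5)
        rcases (ad_gr hz _ _).1 h6 with h7 | h7
        · exact h3 h7
        · exact h4 h7
  · have g1 := hget ⟨i, hi⟩
    simp only at g1
    rw [g1] at h
    refine ne_sound hC hf h ?_
    have g3 : kk z.2.1 i = z.2.1.get ⟨i, hi⟩ := kk_get _ ⟨i, hi⟩
    rw [g3, kk_get]
    obtain ⟨c1⟩ := hAi ⟨i, hi⟩
    obtain ⟨c2⟩ := hBi (σ ⟨i, hi⟩)
    obtain ⟨c3⟩ := s2 ⟨i, hi⟩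
    exact ⟨c1.symm.trans (c3.trans c2)⟩

theorem exists_dat {C : Pres → Prop} {p : Pres} (hp : GProds C p) :
    ∃ z : Dat, Good z ∧ (∀ k ∈ z.2.1, Cp C k) ∧ Nonempty (PG p ≃* PG (GPc z)) := by
  classical
  obtain ⟨V, _, Γ, A, hA, hv⟩ := hp
  have hv' : ∀ v, ∃ k, Cp C k ∧ Nonempty (A v ≃* PG k) := by
    intro v
    rcases hv v with ⟨k, hk, e⟩ | ⟨⟨e⟩⟩
    · exact ⟨k, Or.inl hk, e⟩
    · obtain ⟨c⟩ := z0_cyc
      exact ⟨z0, Or.inr rfl, ⟨e.trans c.symm⟩⟩
  choose k hk he using hv'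
  obtain ⟨n, ⟨e⟩⟩ := Finite.exists_equiv_fin V
  obtain ⟨L, hLd⟩ : ∃ L : List Pres, L = List.ofFn (fun i => k (e.symm i)) := ⟨_, rfl⟩
  have hLn : L.length = n := by rw [hLd, List.length_ofFn]
  obtain ⟨E, hEd⟩ : ∃ E : List (ℕ × ℕ), ∀ x, x ∈ E ↔ ∃ i j : Fin n, x = ((i : ℕ), (j : ℕ)) ∧
      Γ.Adj (e.symm i) (e.symm j) := by
    refine ⟨(((Finset.univ : Finset (Fin n × Fin n)).filter
      (fun y => Γ.Adj (e.symm y.1) (e.symm y.2))).image
        (fun y => ((y.1 : ℕ), (y.2 : ℕ)))).toList, fun x => ?_⟩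
    rw [Finset.mem_toList, Finset.mem_image]
    constructor
    · rintro ⟨⟨i, j⟩, h1, rfl⟩
      rw [Finset.mem_filter] at h1
      exact ⟨i, j, rfl, h1.2⟩
    · rintro ⟨i, j, rfl, h1⟩
      exact ⟨(i, j), Finset.mem_filter.2 ⟨Finset.mem_univ _, h1⟩, rfl⟩
  have hgood : Good ((L.map Prod.fst).sum, L, E) := by
    refine ⟨fun a ha => ?_, fun x hx => ?_⟩
    · exact List.single_le_sum (fun _ _ => Nat.zero_le _) _ (List.mem_map_of_mem ha)
    · obtain ⟨i, j, rfl, h1⟩ := (hEd x).1 hx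
      intro h2
      have h3 : i = j := Fin.ext h2
      rw [h3] at h1
      exact h1.ne rfl
  refine ⟨((L.map Prod.fst).sum, L, E), hgood, ?_, ?_⟩
  · intro a ha
    have ha' : a ∈ L := ha
    rw [hLd, List.mem_ofFn] at ha'
    obtain ⟨i, rfl⟩ := ha'
    exact hk _
  · obtain ⟨A', hA', hAi'⟩ := code_gp hgood
    have hcast : ∀ v : V, (((e.trans (finCongr hLn.symm)) v : Fin L.length) : ℕ) = (e v : ℕ) :=
      fun v => rfl
    refine gp_iso hA hA' (e.trans (finCongr hLn.symm)) (fun u v => ?_) (fun v => ?_)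
    · rw [ad_gr hgood]
      change _ ↔ ((((e.trans (finCongr hLn.symm)) u : Fin L.length) : ℕ),
        (((e.trans (finCongr hLn.symm)) v : Fin L.length) : ℕ)) ∈ E ∨
        ((((e.trans (finCongr hLn.symm)) v : Fin L.length) : ℕ),
        (((e.trans (finCongr hLn.symm)) u : Fin L.length) : ℕ)) ∈ E
      rw [hcast, hcast]
      constructor
      · intro h1
        left
        refine (hEd _).2 ⟨e u, e v, rfl, ?_⟩
        rw [e.symm_apply_apply, e.symm_apply_apply]
        exact h1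
      · rintro (h1 | h1)
        · obtain ⟨i, j, h2, h3⟩ := (hEd _).1 h1
          have h4 : e u = i := Fin.ext (congrArg Prod.fst h2)
          have h5 : e v = j := Fin.ext (congrArg Prod.snd h2)
          rw [← h4, ← h5, e.symm_apply_apply, e.symm_apply_apply] at h3
          exact h3
        · obtain ⟨i, j, h2, h3⟩ := (hEd _).1 h1
          have h4 : e v = i := Fin.ext (congrArg Prod.fst h2)
          have h5 : e u = j := Fin.ext (congrArg Prod.snd h2)
          rw [← h4, ← h5, e.symm_apply_apply, e.symm_apply_apply] at h3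
          exact h3.symm
    · obtain ⟨c⟩ := hAi' ((e.trans (finCongr hLn.symm)) v)
      obtain ⟨d⟩ := he v
      have h1 : L.get ((e.trans (finCongr hLn.symm)) v) = k v := by
        have h2 : ∀ (M : List Pres) (hM : M = List.ofFn (fun i => k (e.symm i)))
            (i : Fin M.length), M.get i = k (e.symm ⟨i, by
              have := i.2
              simp only [hM, List.length_ofFn] at this
              exact this⟩) := by
          rintro M rfl i
          simp
        rw [h2 L hLd]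
        congr 1
        have h3 : (⟨(((e.trans (finCongr hLn.symm)) v : Fin L.length) : ℕ), by
            rw [hcast]
            exact (e v).2⟩ : Fin n) = e v := Fin.ext (hcast v)
        rw [h3, e.symm_apply_apply]
      have c' : A' ((e.trans (finCongr hLn.symm)) v) ≃* PG (k v) := by
        rw [← h1]
        exact c
      exact ⟨d.trans c'.symm⟩

theorem nn_compl {C : Pres → Prop} {f : Pres × Pres →. Bool}
    (hf : ∀ a b, C a → C b → (Nonempty (PG a ≃* PG b) → true ∈ f (a, b)) ∧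
      (¬ Nonempty (PG a ≃* PG b) → false ∈ f (a, b))) {p q : Pres} (hp : GProds C p)
    (hq : GProds C q) (hpq : ¬ Nonempty (PG p ≃* PG q)) : ∃ y, NN C f ((p, q), y) := by
  classical
  obtain ⟨z, hz, hL, ⟨e⟩⟩ := exists_dat hp
  obtain ⟨z', hz', hL', ⟨e'⟩⟩ := exists_dat hq
  refine ⟨(z, z'), ⟨⟨hz, hz'⟩, hL, hL'⟩, ⟨⟨⟨e⟩⟩, ⟨⟨e'⟩⟩⟩, fun s hs => ?_⟩
  obtain ⟨hs1, hs2⟩ := (mem_allM _ _ _).1 hs
  by_contra hcon
  push Not at hcon
  obtain ⟨hbad, hne⟩ := hcon
  apply hpq
  have hlen : z.2.1.length = z'.2.1.length := by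
    by_contra h
    exact hbad (Or.inl h)
  have hno : ∀ i < z.2.1.length, ∀ j < z.2.1.length,
      ¬ ((i ≠ j ∧ s.getD i 0 = s.getD j 0) ∨
      ((ad z.2.2 i j ∧ ((s.getD i 0, s.getD j 0) ∉ z'.2.2 ∧ (s.getD j 0, s.getD i 0) ∉ z'.2.2)) ∨
      (((i, j) ∉ z.2.2 ∧ (j, i) ∉ z.2.2) ∧ ad z'.2.2 (s.getD i 0) (s.getD j 0)))) := by
    intro i hi j hj h
    exact hbad (Or.inr ⟨i, j, ⟨hi, hj⟩, h⟩)
  have hlt : ∀ i : Fin z.2.1.length, s.getD i 0 < z'.2.1.length := by
    intro i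
    have h1 : (i : ℕ) < s.length := by
      rw [hs1]
      exact i.2
    rw [List.getD_eq_getElem _ _ h1]
    exact hs2 _ (List.getElem_mem h1)
  let τ : Fin z.2.1.length → Fin z'.2.1.length := fun i => ⟨s.getD i 0, hlt i⟩
  have hτ : Function.Injective τ := by
    intro i j hij
    by_contra h
    exact hno i i.2 j j.2 (Or.inl ⟨fun h1 => h (Fin.ext h1), congrArg Fin.val hij⟩)
  have hτb : Function.Bijective τ := by
    rw [Fintype.bijective_iff_injective_and_card]
    exact ⟨hτ, by simpa using hlen⟩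
  obtain ⟨A, hA, hAi⟩ := code_gp hz
  obtain ⟨A', hA', hAi'⟩ := code_gp hz'
  have key : Nonempty (PG (GPc z) ≃* PG (GPc z')) := by
    refine gp_iso hA hA' (Equiv.ofBijective τ hτb) (fun i j => ?_) (fun i => ?_)
    · rw [ad_gr hz, ad_gr hz']
      change ad z.2.2 i j ↔ ad z'.2.2 (s.getD i 0) (s.getD j 0)
      constructor
      · intro h
        by_contra h2
        refine hno i i.2 j j.2 (Or.inr (Or.inl ⟨h, fun h3 => h2 (Or.inl h3),
          fun h3 => h2 (Or.inr h3)⟩))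
      · intro h
        by_contra h2
        exact hno i i.2 j j.2 (Or.inr (Or.inr ⟨⟨fun h3 => h2 (Or.inl h3),
          fun h3 => h2 (Or.inr h3)⟩, h⟩))
    · have h1 : Nonempty (PG (z.2.1.get i) ≃* PG (z'.2.1.get (τ i))) := by
        by_contra h2
        apply hne i i.2
        have g1 : kk z'.2.1 (s.getD i 0) = z'.2.1.get (τ i) := kk_get _ (τ i)
        rw [kk_get, g1]
        exact ne_compl hf (hL _ (List.get_mem _ _)) (hL' _ (List.get_mem _ _)) h2
      obtain ⟨c1⟩ := hAi i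
      obtain ⟨c2⟩ := hAi' (τ i)
      obtain ⟨c3⟩ := h1
      exact ⟨c1.trans (c3.trans c2.symm)⟩
  obtain ⟨c⟩ := key
  exact ⟨e.trans (c.trans e'.symm)⟩

end Run7.h550.IP
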