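import Pool.Agent.Run7.h550.IP.Two
import Pool.Agent.Run7.h550.TK.Tree

/-!
# Centralizers of rigid vertex groups of graph products (helper550)
-/

set_option autoImplicit false

namespace Run7.h550.IP

open Pool.Agent.Helper270.Tree Run7.h550.TK Run7.h550.PK Run7.h241 Monoid Monoid.PushoutI
open Pool.Agent.Y110.FJ

section edge

variable {K : Type} [Group K] {G : Bool → Type} [∀ b, Group (G b)] {φ : ∀ b, K →* G b}

theorem stab_edge (c : PushoutI φ ⧸ KS φ) : ∃ γ : PushoutI φ, ∀ h : PushoutI φ,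
    h • (Sum.inl c : (PushoutI φ ⧸ KS φ) ⊕ ((PushoutI φ ⧸ GS φ true) ⊕ (PushoutI φ ⧸ GS φ false)))
      = Sum.inl c → γ⁻¹ * h * γ ∈ KS φ := by
  refine ⟨c.out, fun h hv => ?_⟩
  have h1 : h • c = c := Sum.inl_injective hv
  have h2 : h • ((c.out : PushoutI φ) : PushoutI φ ⧸ KS φ) =
      ((c.out : PushoutI φ) : PushoutI φ ⧸ KS φ) := by
    rw [QuotientGroup.out_eq']; exact h1
  have h3 : ((h * c.out : PushoutI φ) : PushoutI φ ⧸ KS φ) =
      ((c.out : PushoutI φ) : PushoutI φ ⧸ KS φ) := h2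
  have h4 := QuotientGroup.eq.1 h3.symm
  rwa [← mul_assoc] at h4

end edge

/-- the Bass-Serre tree of an amalgamated product, with the edge stabilizers -/
theorem exists_tree' {N : Type} [Group N] {A B K : Subgroup N} (h : Amg A B K) :
    ∃ (V : Type) (_ : MulAction N V) (T : SimpleGraph V),
    TreeAct N T ∧ (∀ v : V, ∃ n : N, (∀ x : N, x • v = v → n⁻¹ * x * n ∈ A) ∨
      (∀ x : N, x • v = v → n⁻¹ * x * n ∈ B)) ∧
    ∀ v w : V, T.Adj v w → ∃ n : N, ∀ x : N, x • v = v → x • w = w → n⁻¹ * x * n ∈ K := by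
  obtain ⟨e, he⟩ := exists_iso h
  obtain ⟨d⟩ := NormalWord.transversal_nonempty (ph h) (fun b => by
    intro x y hxy
    exact Subgroup.inclusion_injective _ hxy)
  have ht := treeAct d
  let _ : MulAction N ((PushoutI (ph h) ⧸ KS (ph h)) ⊕
      ((PushoutI (ph h) ⧸ GS (ph h) true) ⊕ (PushoutI (ph h) ⧸ GS (ph h) false))) :=
    MulAction.compHom _ e.symm.toMonoidHom
  have hconj : ∀ (γ : PushoutI (ph h)) (x : N), (e γ)⁻¹ * x * e γ = e (γ⁻¹ * e.symm x * γ) := by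
    intro γ x
    rw [map_mul, map_mul, map_inv, MulEquiv.apply_symm_apply]
  refine ⟨_, inferInstance, bip (nbP (ph h)), ⟨ht.isTree, fun g v w => ht.adj (e.symm g) v w,
    fun g v w => ht.noInv (e.symm g) v w⟩, fun v => ?_, fun v w hvw => ?_⟩
  · obtain ⟨γ, b, hb⟩ := stab (φ := ph h) v
    refine ⟨e γ, ?_⟩
    have key : ∀ x : N, x • v = v → (e γ)⁻¹ * x * e γ ∈ gf A B b := by
      intro x hx
      obtain ⟨y, hy⟩ := hb (e.symm x) hx
      rw [hconj, ← hy, he]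
      exact y.2
    cases b
    · exact Or.inr key
    · exact Or.inl key
  · have key : ∀ c : PushoutI (ph h) ⧸ KS (ph h), ∃ n : N, ∀ x : N,
        x • (Sum.inl c : (PushoutI (ph h) ⧸ KS (ph h)) ⊕ ((PushoutI (ph h) ⧸ GS (ph h) true) ⊕
          (PushoutI (ph h) ⧸ GS (ph h) false))) = Sum.inl c → n⁻¹ * x * n ∈ K := by
      intro c
      obtain ⟨γ, hγ⟩ := stab_edge (φ := ph h) c
      refine ⟨e γ, fun x hx => ?_⟩
      obtain ⟨k, hk⟩ := hγ (e.symm x) hx
      rw [hconj, ← hk, ← PushoutI.of_apply_eq_base (ph h) true k, he]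
      exact k.2
    obtain ⟨b, c, ⟨rfl, _⟩ | ⟨rfl, _⟩⟩ := hvw
    · obtain ⟨n, hn⟩ := key c
      exact ⟨n, fun x hx _ => hn x hx⟩
    · obtain ⟨n, hn⟩ := key c
      exact ⟨n, fun x _ hx => hn x hx⟩

variable {N V : Type} [Group N] {Γ : SimpleGraph V} {A : V → Subgroup N}

/-- elements which commute with a vertex group with property FA -/
theorem cent_pair (h : IsGraphProduct Γ A) (hne : ∀ v, A v ≠ ⊥) {u w : V} (huw : u ≠ w)
    (hadj : ¬ Γ.Adj u w) (hfa : FA (A u)) (X : Set N) (hX : X ⊆ NS A {u, w})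
    (hc : ∀ x ∈ X, ∀ a ∈ A u, a * x = x * a) :
    ∃ n : N, ∀ x ∈ X, n⁻¹ * x * n ∈ NS A (({u, w} : Set V) \ {w}) := by
  have hu : u ∈ ({u, w} : Set V) := Or.inl rfl
  have hw : w ∈ ({u, w} : Set V) := Or.inr rfl
  have ham := amg_NS h.pairSystem hu hw huw hadj
  obtain ⟨Y, _, T, hT, hV, hE⟩ := exists_tree' ham
  have hH : FA ↥((A u).subgroupOf (NS A ({u, w} : Set V))) :=
    fa_equiv (Subgroup.subgroupOfEquivOfLe (le_NS hu)).symm hfa
  obtain ⟨x0, hx0⟩ := hH Y T ⟨hT.isTree, fun g y z => hT.adj (g : ↥(NS A ({u, w} : Set V))) y z,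
    fun g y z => hT.noInv (g : ↥(NS A ({u, w} : Set V))) y z⟩
  have hfix : ∀ a : ↥(NS A ({u, w} : Set V)), (a : N) ∈ A u → a • x0 = x0 := fun a ha =>
    hx0 ⟨a, ha⟩
  -- uniqueness
  have huniq : ∀ x1 : Y, (∀ a : ↥(NS A ({u, w} : Set V)), (a : N) ∈ A u → a • x1 = x1) →
      x1 = x0 := by
    intro x1 hx1
    by_contra hne1
    obtain ⟨q, hq0, hq1, hadj', hd, -⟩ := exists_geod hT.isTree x0 x1
    have hpos : 0 < T.dist x0 x1 :=
      hT.isTree.connected.pos_dist_of_ne (fun e => hne1 e.symm)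
    have h1 : ∀ a : ↥(NS A ({u, w} : Set V)), (a : N) ∈ A u → a • q 1 = q 1 := by
      intro a ha
      refine hT.convex (hfix a ha) (hx1 a ha) ?_
      obtain ⟨e1, e2⟩ := hd 1 (by omega)
      omega
    obtain ⟨n, hn⟩ := hE (q 0) (q 1) (hadj' 0 hpos)
    apply hne u
    rw [eq_bot_iff]
    intro a ha
    have h2 := hn ⟨a, le_NS hu ha⟩ (by rw [hq0]; exact hfix _ ha) (h1 _ ha)
    have h3 : ({u, w} : Set V) \ {u, w} = ∅ := Set.sdiff_self
    have h4 : NS A (({u, w} : Set V) \ {u, w}) = ⊥ := by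
      rw [h3, eq_bot_iff]
      exact NS_le fun v hv => absurd hv (Set.notMem_empty v)
    have h5 : ((n⁻¹ * ⟨a, le_NS hu ha⟩ * n : ↥(NS A ({u, w} : Set V))) : N) ∈
        NS A (({u, w} : Set V) \ {u, w}) := h2
    rw [h4, Subgroup.mem_bot] at h5
    have h6 : (n : N)⁻¹ * a * n = 1 := h5
    have h7 : a = (n : N) * ((n : N)⁻¹ * a * n) * (n : N)⁻¹ := by group
    rw [h7, h6]
    simp
  have hst : ∀ x : ↥(NS A ({u, w} : Set V)), (x : N) ∈ X → x • x0 = x0 := by
    intro x hx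
    apply huniq
    intro a ha
    have h1 : a * x = x * a := Subtype.ext (hc x hx a ha)
    rw [smul_smul, h1, ← smul_smul, hfix a ha]
  obtain ⟨n, hn | hn⟩ := hV x0
  · exfalso
    have h1 : ({u} : Set V) ⊆ ({u, w} : Set V) \ {u} := by
      refine sub_of_conj h.pairSystem hne (c := (n : N)) fun x hx => ?_
      rw [NS_single] at hx
      exact hn ⟨x, le_NS hu hx⟩ (hfix _ hx)
    exact (h1 rfl).2 rfl
  · exact ⟨n, fun x hx => hn ⟨x, hX hx⟩ (hst _ hx)⟩

/-- the components at other vertices of the elements which commute with a vertex group -/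
theorem cent_zero (h : IsGraphProduct Γ A) (hne : ∀ v, A v ≠ ⊥) {u w : V} (huw : u ≠ w)
    (hadj : ¬ Γ.Adj u w) (hfa : FA (A u)) {g : N} (hg : ∀ a ∈ A u, a * g = g * a) :
    rr h.pairSystem {w} g = 1 := by
  have hu : u ∈ ({u, w} : Set V) := Or.inl rfl
  obtain ⟨n, hn⟩ := cent_pair h hne huw hadj hfa {rr h.pairSystem {u, w} g} (by
    rintro _ rfl
    exact rr_mem h.pairSystem _ g) (by
    rintro _ rfl a ha
    have h1 := congrArg (rr h.pairSystem {u, w}) (hg a ha)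
    rw [map_mul, map_mul, rr_fix' h.pairSystem hu ha] at h1
    exact h1)
  have h1 := hn _ rfl
  have h2 : rr h.pairSystem {w} (n⁻¹ * rr h.pairSystem {u, w} g * n) = 1 := by
    refine NS_eq_on (f := rr h.pairSystem {w}) (g := 1) (fun v hv y hy => ?_) _ h1
    exact rr_kill h.pairSystem (fun e => hv.2 e) hy
  rw [map_mul, map_mul, map_inv] at h2
  have h3 : rr h.pairSystem {w} (rr h.pairSystem {u, w} g) = 1 := by
    have h4 : ∀ a b : N, a⁻¹ * b * a = 1 → b = 1 := by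
      intro a b hab
      have : b = a * (a⁻¹ * b * a) * a⁻¹ := by group
      rw [this, hab]
      simp
    exact h4 _ _ h2
  rw [rr_rr] at h3
  have h5 : ({w} : Set V) ∩ {u, w} = {w} := by
    ext x
    simp only [Set.mem_inter_iff, Set.mem_singleton_iff, Set.mem_insert_iff]
    tauto
  rw [h5] at h3
  exact h3

/-- vertex groups which commute up to conjugation -/
theorem adj_of_comm (h : IsGraphProduct Γ A) (hne : ∀ v, A v ≠ ⊥) {u w : V} (huw : u ≠ w)
    (hfa : FA (A u)) {g : N} (hg : ∀ a ∈ A u, ∀ b ∈ A w, a * (g * b * g⁻¹) = g * b * g⁻¹ * a) :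
    Γ.Adj u w := by
  by_contra hadj
  have hu : u ∈ ({u, w} : Set V) := Or.inl rfl
  have hw : w ∈ ({u, w} : Set V) := Or.inr rfl
  obtain ⟨n, hn⟩ := cent_pair h hne huw hadj hfa
    {x | ∃ b ∈ A w, x = rr h.pairSystem {u, w} (g * b * g⁻¹)} (by
    rintro _ ⟨b, hb, rfl⟩
    exact rr_mem h.pairSystem _ _) (by
    rintro _ ⟨b, hb, rfl⟩ a ha
    have h1 := congrArg (rr h.pairSystem {u, w}) (hg a ha b hb)
    rw [map_mul _ a, map_mul _ _ a, rr_fix' h.pairSystem hu ha] at h1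
    exact h1)
  have h1 : ({w} : Set V) ⊆ ({u, w} : Set V) \ {w} := by
    refine sub_of_conj h.pairSystem hne (c := (rr h.pairSystem {u, w} g)⁻¹ * n) fun b hb => ?_
    rw [NS_single] at hb
    have h2 := hn _ ⟨b, hb, rfl⟩
    rw [map_mul, map_mul, map_inv, rr_fix' h.pairSystem hw hb] at h2
    have h3 : ((rr h.pairSystem {u, w} g)⁻¹ * n)⁻¹ * b * ((rr h.pairSystem {u, w} g)⁻¹ * n) =
        n⁻¹ * (rr h.pairSystem {u, w} g * b * (rr h.pairSystem {u, w} g)⁻¹) * n := by group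
    rw [h3]
    exact h2
  exact (h1 rfl).2 rfl

end Run7.h550.IP
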