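import Pool.Agent.Q32.DP.PROD2
import Pool.Agent.Run7.h550.TK.Main

/-!
# Presentations of graph products (helper550)
-/

set_option autoImplicit false

namespace Run7.h550.IP

open Pool.Agent.Q223.IS Pool.Agent.Q32.DP Pool.Agent.Q32.DP.PROD2
open Run7.h550.TK (IsGraphProduct)

/-- the data of a graph product: a bound for the numbers of generators, the list of the
presentations of the vertex groups, the list of the edges -/
abbrev Dat : Type := ℕ × List Pres × List (ℕ × ℕ)

/-- the members of the list -/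
def kk (L : List Pres) (i : ℕ) : Pres := L.getD i (0, [])

/-- the new indices -/
def sh (B T i n x : ℕ) : ℕ := if x < n then i * B + x else T + x

/-- the presentation of the graph product -/
def GPc (z : Dat) : Pres :=
  (z.2.1.length * z.1,
    (List.range z.2.1.length).flatMap (fun i => (kk z.2.1 i).2.map
      (mp (sh z.1 (z.2.1.length * z.1) i (kk z.2.1 i).1))) ++
    ((List.range z.2.1.length).flatMap (fun i => (List.range z.1).map (fun x =>
      if x < (kk z.2.1 i).1 then ([] : Wd) else [(i * z.1 + x, true)])) ++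
    z.2.2.flatMap (fun e => (List.range z.1).flatMap (fun x => (List.range z.1).map
      (fun y => cmw [(e.1 * z.1 + x, true)] [(e.2 * z.1 + y, true)])))))

/-- admissible data -/
def Good (z : Dat) : Prop := (∀ k ∈ z.2.1, k.1 ≤ z.1) ∧ ∀ e ∈ z.2.2, e.1 ≠ e.2

section

variable {z : Dat}

theorem kk_le (hz : Good z) (i : ℕ) : (kk z.2.1 i).1 ≤ z.1 := by
  unfold kk
  by_cases h : i < z.2.1.length
  · rw [List.getD_eq_getElem _ _ h]
    exact hz.1 _ (List.getElem_mem h)
  · rw [List.getD_eq_default _ _ (not_lt.1 h)]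
    exact Nat.zero_le _

theorem kk_big {i : ℕ} (h : z.2.1.length ≤ i) : kk z.2.1 i = (0, []) :=
  List.getD_eq_default _ _ h

theorem PG_zero (u : PG ((0, []) : Pres)) : u = 1 := by
  have h : (MonoidHom.id (PG ((0, []) : Pres))) = 1 := by
    apply PG_ext
    intro i
    have h1 : gen ((0, []) : Pres) i = 1 := gen_big ((0, []) : Pres) (Nat.zero_le i)
    rw [h1, map_one, map_one]
  exact DFunLike.congr_fun h u

theorem idx_lt {n B i x : ℕ} (hi : i < n) (hx : x < B) : i * B + x < n * B := by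
  have h1 : (i + 1) * B ≤ n * B := Nat.mul_le_mul_right B hi
  have h2 : (i + 1) * B = i * B + B := by ring
  omega

theorem idx_div {B i x : ℕ} (hx : x < B) : (i * B + x) / B = i := by
  rw [mul_comm, Nat.mul_add_div (by omega), Nat.div_eq_of_lt hx, add_zero]

theorem idx_mod {B i x : ℕ} (hx : x < B) : (i * B + x) % B = x := by
  rw [mul_comm, Nat.mul_add_mod, Nat.mod_eq_of_lt hx]

theorem rel1 {i : ℕ} (hi : i < z.2.1.length) {w : Wd} (hw : w ∈ (kk z.2.1 i).2) :
    mp (sh z.1 (z.2.1.length * z.1) i (kk z.2.1 i).1) w ∈ (GPc z).2 :=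
  List.mem_append_left _ (List.mem_flatMap.2 ⟨i, List.mem_range.2 hi, List.mem_map_of_mem hw⟩)

theorem rel2 {i x : ℕ} (hi : i < z.2.1.length) (hx : x < z.1) (hx' : ¬ x < (kk z.2.1 i).1) :
    [(i * z.1 + x, true)] ∈ (GPc z).2 := by
  refine List.mem_append_right _ (List.mem_append_left _ (List.mem_flatMap.2
    ⟨i, List.mem_range.2 hi, List.mem_map.2 ⟨x, List.mem_range.2 hx, ?_⟩⟩))
  rw [if_neg hx']

theorem rel3 {e : ℕ × ℕ} (he : e ∈ z.2.2) {x y : ℕ} (hx : x < z.1) (hy : y < z.1) :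
    cmw [(e.1 * z.1 + x, true)] [(e.2 * z.1 + y, true)] ∈ (GPc z).2 :=
  List.mem_append_right _ (List.mem_append_right _ (List.mem_flatMap.2 ⟨e, he,
    List.mem_flatMap.2 ⟨x, List.mem_range.2 hx, List.mem_map.2 ⟨y, List.mem_range.2 hy, rfl⟩⟩⟩))

theorem rel_cases {w : Wd} (hw : w ∈ (GPc z).2) :
    (∃ i < z.2.1.length, ∃ u ∈ (kk z.2.1 i).2,
      w = mp (sh z.1 (z.2.1.length * z.1) i (kk z.2.1 i).1) u) ∨
    (∃ i < z.2.1.length, ∃ x < z.1, w = if x < (kk z.2.1 i).1 then ([] : Wd) else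
      [(i * z.1 + x, true)]) ∨
    (∃ e ∈ z.2.2, ∃ x < z.1, ∃ y < z.1,
      w = cmw [(e.1 * z.1 + x, true)] [(e.2 * z.1 + y, true)]) := by
  rcases List.mem_append.1 hw with hw | hw
  · obtain ⟨i, hi, hw⟩ := List.mem_flatMap.1 hw
    obtain ⟨u, hu, rfl⟩ := List.mem_map.1 hw
    exact Or.inl ⟨i, List.mem_range.1 hi, u, hu, rfl⟩
  rcases List.mem_append.1 hw with hw | hw
  · obtain ⟨i, hi, hw⟩ := List.mem_flatMap.1 hw
    obtain ⟨x, hx, rfl⟩ := List.mem_map.1 hw
    exact Or.inr (Or.inl ⟨i, List.mem_range.1 hi, x, List.mem_range.1 hx, rfl⟩)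
  · obtain ⟨e, he, hw⟩ := List.mem_flatMap.1 hw
    obtain ⟨x, hx, hw⟩ := List.mem_flatMap.1 hw
    obtain ⟨y, hy, rfl⟩ := List.mem_map.1 hw
    exact Or.inr (Or.inr ⟨e, he, x, List.mem_range.1 hx, y, List.mem_range.1 hy, rfl⟩)

/-- the homomorphisms from the vertex groups -/
theorem exists_G (hz : Good z) : ∃ G : ∀ i, PG (kk z.2.1 i) →* PG (GPc z),
    ∀ i x, G i (gen _ x) =
      gen (GPc z) (sh z.1 (z.2.1.length * z.1) i (kk z.2.1 i).1 x) := by
  have h : ∀ i, ∃ G : PG (kk z.2.1 i) →* PG (GPc z),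
      ∀ x, G (gen _ x) = gen (GPc z) (sh z.1 (z.2.1.length * z.1) i (kk z.2.1 i).1 x) := by
    intro i
    refine PG_lift (kk z.2.1 i)
      (fun x => gen (GPc z) (sh z.1 (z.2.1.length * z.1) i (kk z.2.1 i).1 x)) ?_ ?_
    · intro x hx
      have e : sh z.1 (z.2.1.length * z.1) i (kk z.2.1 i).1 x = z.2.1.length * z.1 + x :=
        if_neg (not_lt.2 hx)
      change gen (GPc z) (sh z.1 (z.2.1.length * z.1) i (kk z.2.1 i).1 x) = 1
      rw [e]
      exact gen_big _ (Nat.le_add_right _ _)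
    · intro w hw
      by_cases hi : i < z.2.1.length
      · have h1 := PG_rel (GPc z) (rel1 hi hw)
        rwa [ev_mp] at h1
      · rw [kk_big (not_lt.1 hi)] at hw
        exact absurd hw (List.not_mem_nil)
  choose G hG using h
  exact ⟨G, hG⟩

theorem lift_all (hz : Good z) {G : ∀ i, PG (kk z.2.1 i) →* PG (GPc z)}
    (hG : ∀ i x, G i (gen _ x) = gen (GPc z) (sh z.1 (z.2.1.length * z.1) i (kk z.2.1 i).1 x))
    {H : Type} [Group H] (φ : ∀ i, PG (kk z.2.1 i) →* H)
    (hφ : ∀ e ∈ z.2.2, e.1 < z.2.1.length → e.2 < z.2.1.length → ∀ u v,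
      φ e.1 u * φ e.2 v = φ e.2 v * φ e.1 u) :
    ∃ F : PG (GPc z) →* H, ∀ i < z.2.1.length, ∀ u, F (G i u) = φ i u := by
  let y : ℕ → H := fun m => if m < z.2.1.length * z.1 then
    φ (m / z.1) (gen _ (m % z.1)) else 1
  have hy1 : ∀ i < z.2.1.length, ∀ x < z.1, y (i * z.1 + x) = φ i (gen _ x) := by
    intro i hi x hx
    have e1 : y (i * z.1 + x) =
        φ ((i * z.1 + x) / z.1) (gen _ ((i * z.1 + x) % z.1)) := if_pos (idx_lt hi hx)
    rw [e1, idx_mod hx]
    have e2 : ∀ j, j = i → φ j (gen (kk z.2.1 j) x) = φ i (gen _ x) := by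
      rintro j rfl
      rfl
    exact e2 _ (idx_div hx)
  have hy2 : ∀ m, z.2.1.length * z.1 ≤ m → y m = 1 := fun m hm => if_neg (not_lt.2 hm)
  have hy3 : ∀ i < z.2.1.length, ∀ x,
      y (sh z.1 (z.2.1.length * z.1) i (kk z.2.1 i).1 x) = φ i (gen _ x) := by
    intro i hi x
    by_cases hx : x < (kk z.2.1 i).1
    · have e : sh z.1 (z.2.1.length * z.1) i (kk z.2.1 i).1 x = i * z.1 + x := if_pos hx
      rw [e]
      exact hy1 i hi x (lt_of_lt_of_le hx (kk_le hz i))
    · have e : sh z.1 (z.2.1.length * z.1) i (kk z.2.1 i).1 x = z.2.1.length * z.1 + x :=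
        if_neg hx
      rw [e, hy2 _ (Nat.le_add_right _ _), gen_big _ (not_lt.1 hx), map_one]
  obtain ⟨F, hF⟩ := PG_lift (GPc z) y hy2 (by
    intro w hw
    rcases rel_cases hw with ⟨i, hi, u, hu, rfl⟩ | ⟨i, hi, x, hx, rfl⟩ | ⟨e, he, x, hx, x', hx', rfl⟩
    · rw [ev_mp]
      have e : (fun x => y (sh z.1 (z.2.1.length * z.1) i (kk z.2.1 i).1 x)) =
          fun x => φ i (gen _ x) := funext (hy3 i hi)
      rw [e, ← ev_map, PG_rel _ hu, map_one]
    · by_cases hx' : x < (kk z.2.1 i).1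
      · rw [if_pos hx', ev_nil]
      · rw [if_neg hx', ev_true, hy1 i hi x hx, gen_big _ (not_lt.1 hx'), map_one]
    · rw [ev_cmw, ev_true, ev_true]
      by_cases h1 : e.1 < z.2.1.length
      · by_cases h2 : e.2 < z.2.1.length
        · rw [hy1 _ h1 _ hx, hy1 _ h2 _ hx']
          exact hφ e he h1 h2 _ _
        · rw [hy2 (e.2 * z.1 + x') (by
            have := Nat.mul_le_mul_right z.1 (not_lt.1 h2)
            omega)]
          exact Commute.one_right _
      · rw [hy2 (e.1 * z.1 + x) (by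
          have := Nat.mul_le_mul_right z.1 (not_lt.1 h1)
          omega)]
        exact Commute.one_left _)
  refine ⟨F, fun i hi u => ?_⟩
  have h1 : F.comp (G i) = φ i := by
    apply PG_ext
    intro x
    change F (G i (gen _ x)) = φ i (gen _ x)
    rw [hG, hF, hy3 i hi]
  exact DFunLike.congr_fun h1 u

theorem ev_mem {M : Type} [Group M] {x : ℕ → M} {D : Subgroup M} (h : ∀ i, x i ∈ D) (w : Wd) :
    ev x w ∈ D := by
  induction w with
  | nil =>
    rw [ev_nil]
    exact D.one_mem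
  | cons q w ih =>
    rw [ev_cons]
    refine D.mul_mem ?_ ih
    obtain ⟨i, b⟩ := q
    cases b
    · rw [ev_false]
      exact D.inv_mem (h i)
    · rw [ev_true]
      exact h i

/-- the graph of the data -/
def gr (z : Dat) : SimpleGraph (Fin z.2.1.length) where
  Adj i j := i ≠ j ∧ (((i : ℕ), (j : ℕ)) ∈ z.2.2 ∨ ((j : ℕ), (i : ℕ)) ∈ z.2.2)
  symm := ⟨fun _ _ h => ⟨h.1.symm, h.2.symm⟩⟩
  loopless := ⟨fun _ h => h.1 rfl⟩

theorem gr_adj (z : Dat) (i j : Fin z.2.1.length) : (gr z).Adj i j ↔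
    i ≠ j ∧ (((i : ℕ), (j : ℕ)) ∈ z.2.2 ∨ ((j : ℕ), (i : ℕ)) ∈ z.2.2) := Iff.rfl

/-- **the presented group is the graph product** -/
theorem code_gp (hz : Good z) : ∃ A : Fin z.2.1.length → Subgroup (PG (GPc z)),
    IsGraphProduct (gr z) A ∧ ∀ i, Nonempty (A i ≃* PG (z.2.1.get i)) := by
  classical
  obtain ⟨G, hG⟩ := exists_G hz
  -- commuting images
  have hcg : ∀ e ∈ z.2.2, ∀ x y, Commute (G e.1 (gen _ x)) (G e.2 (gen _ y)) := by
    intro e he x y
    rw [hG, hG]
    by_cases hx : x < (kk z.2.1 e.1).1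
    · by_cases hy : y < (kk z.2.1 e.2).1
      · have e1 : sh z.1 (z.2.1.length * z.1) e.1 (kk z.2.1 e.1).1 x = e.1 * z.1 + x := if_pos hx
        have e2 : sh z.1 (z.2.1.length * z.1) e.2 (kk z.2.1 e.2).1 y = e.2 * z.1 + y := if_pos hy
        rw [e1, e2]
        have h1 := PG_rel (GPc z) (rel3 he (lt_of_lt_of_le hx (kk_le hz _))
          (lt_of_lt_of_le hy (kk_le hz _)))
        rw [ev_cmw, ev_true, ev_true] at h1
        exact h1
      · have e2 : sh z.1 (z.2.1.length * z.1) e.2 (kk z.2.1 e.2).1 y =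
          z.2.1.length * z.1 + y := if_neg hy
        rw [e2, gen_big (GPc z) (i := z.2.1.length * z.1 + y) (Nat.le_add_right _ _)]
        exact Commute.one_right _
    · have e1 : sh z.1 (z.2.1.length * z.1) e.1 (kk z.2.1 e.1).1 x =
        z.2.1.length * z.1 + x := if_neg hx
      rw [e1, gen_big (GPc z) (i := z.2.1.length * z.1 + x) (Nat.le_add_right _ _)]
      exact Commute.one_left _
  have hcomm : ∀ e ∈ z.2.2, ∀ u v, G e.1 u * G e.2 v = G e.2 v * G e.1 u := by
    intro e he u v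
    obtain ⟨w, rfl⟩ := gen_word _ u
    obtain ⟨w', rfl⟩ := gen_word _ v
    rw [ev_map, ev_map]
    refine ev_comm (fun i => ?_) w
    exact (ev_comm (fun j => (hcg e he i j).symm) w').symm
  -- injectivity
  have hinj : ∀ i < z.2.1.length, Function.Injective (G i) := by
    intro i hi
    obtain ⟨F, hF⟩ := lift_all hz hG (H := PG (kk z.2.1 i)) (fun j => if h : j = i then
      (by subst h; exact MonoidHom.id _) else 1) (by
      intro e he _ _ u v
      by_cases h1 : e.1 = i
      · have h2 : e.2 ≠ i := fun h => hz.2 e he (h1.trans h.symm)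
        rw [dif_neg h2]
        simp
      · rw [dif_neg h1]
        simp)
    intro u v huv
    have h1 := hF i hi u
    have h2 := hF i hi v
    rw [dif_pos rfl] at h1 h2
    rw [huv, h2] at h1
    exact h1.symm
  refine ⟨fun i => (G i).range, ⟨?_, ?_, ?_⟩, fun i => ?_⟩
  · rw [eq_top_iff]
    intro g _
    obtain ⟨w, rfl⟩ := gen_word _ g
    refine ev_mem (fun m => ?_) w
    by_cases hm : m < z.2.1.length * z.1
    · have hB : 0 < z.1 := by
        rcases Nat.eq_zero_or_pos z.1 with h | h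
        · rw [h, Nat.mul_zero] at hm
          omega
        · exact h
      have hi : m / z.1 < z.2.1.length := Nat.div_lt_of_lt_mul (by rwa [mul_comm] at hm)
      have hx : m % z.1 < z.1 := Nat.mod_lt _ hB
      have hmx : (m / z.1) * z.1 + m % z.1 = m := by
        rw [mul_comm]
        exact Nat.div_add_mod m z.1
      by_cases hx' : m % z.1 < (kk z.2.1 (m / z.1)).1
      · have h1 := hG (m / z.1) (m % z.1)
        have e : sh z.1 (z.2.1.length * z.1) (m / z.1) (kk z.2.1 (m / z.1)).1 (m % z.1) = m := by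
          unfold sh
          rw [if_pos hx', hmx]
        rw [e] at h1
        rw [← h1]
        exact (le_iSup (fun i : Fin z.2.1.length => (G i).range) ⟨m / z.1, hi⟩) ⟨_, rfl⟩
      · have h1 := PG_rel (GPc z) (rel2 hi hx hx')
        rw [ev_true, hmx] at h1
        rw [h1]
        exact Subgroup.one_mem _
    · rw [gen_big _ (not_lt.1 hm)]
      exact Subgroup.one_mem _
  · rintro v w ⟨-, h | h⟩ _ ⟨u, rfl⟩ _ ⟨u', rfl⟩
    · exact hcomm _ h u u'
    · exact (hcomm _ h u' u).symm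
  · intro H _ f hf
    obtain ⟨F, hF⟩ := lift_all hz hG (H := H) (fun i => if h : i < z.2.1.length then
      (f ⟨i, h⟩).comp (G i).rangeRestrict else 1) (by
      intro e he h1 h2 u v
      rw [dif_pos h1, dif_pos h2]
      exact hf ⟨e.1, h1⟩ ⟨e.2, h2⟩ ⟨fun h => hz.2 e he (congrArg Fin.val h), Or.inl he⟩ _ _)
    refine ⟨F, ?_⟩
    rintro ⟨v, hv⟩ ⟨_, u, rfl⟩
    rw [hF v hv u, dif_pos hv]
    rfl
  · have h1 : z.2.1.get i = kk z.2.1 i := by
      unfold kk
      rw [List.getD_eq_getElem _ _ i.2]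
      rfl
    rw [h1]
    exact ⟨(MonoidHom.ofInjective (hinj i i.2)).symm⟩

end

/-- graph products of isomorphic groups along isomorphic graphs -/
theorem gp_iso {N N' V V' : Type} [Group N] [Group N'] {Γ : SimpleGraph V} {Γ' : SimpleGraph V'}
    {A : V → Subgroup N} {A' : V' → Subgroup N'} (h : IsGraphProduct Γ A)
    (h' : IsGraphProduct Γ' A') (σ : V ≃ V') (hσ : ∀ u v, Γ.Adj u v ↔ Γ'.Adj (σ u) (σ v))
    (he : ∀ v, Nonempty (A v ≃* A' (σ v))) : Nonempty (N ≃* N') := by
  let e := fun v => (he v).some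
  obtain ⟨F, hF⟩ := h.univ N' (fun v => (A' (σ v)).subtype.comp (e v).toMonoidHom) (by
    intro v w hvw a b
    exact h'.comm _ _ ((hσ v w).1 hvw) _ (e v a).2 _ (e w b).2)
  obtain ⟨F', hF'⟩ := h'.univ N (fun v' => (A (σ.symm v')).subtype.comp
    ((e (σ.symm v')).symm.toMonoidHom.comp
      (MulEquiv.subgroupCongr (by rw [σ.apply_symm_apply])).toMonoidHom)) (by
    intro v w hvw a b
    refine h.comm _ _ ?_ _ (Subtype.prop _) _ (Subtype.prop _)
    rw [hσ, σ.apply_symm_apply, σ.apply_symm_apply]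
    exact hvw)
  have h1 : ∀ v (x : A v), F x = (e v x : N') := fun v x => hF v x
  have h2 : ∀ v (y : A' (σ v)), F' y = ((e v).symm y : N) := by
    intro v y
    have h3 := hF' (σ v) y
    rw [h3]
    change (((e (σ.symm (σ v))).symm ((MulEquiv.subgroupCongr _) y) : A (σ.symm (σ v))) : N) = _
    have h4 : ∀ (u : V) (hu : A' (σ v) = A' (σ u)) (huv : u = v),
        (((e u).symm (MulEquiv.subgroupCongr hu y) : A u) : N) = ((e v).symm y : N) := by
      rintro u hu rfl
      rfl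
    exact h4 _ _ (σ.symm_apply_apply v)
  refine ⟨MonoidHom.toMulEquiv F F' ?_ ?_⟩
  · apply MonoidHom.ext
    intro x
    have hx : x ∈ (⨆ v, A v) := by
      rw [h.generate]
      exact Subgroup.mem_top x
    have h5 : (⨆ v, A v) ≤ MonoidHom.eqLocus (F'.comp F) (MonoidHom.id N) := by
      refine iSup_le fun v a ha => ?_
      change F' (F a) = a
      rw [h1 v ⟨a, ha⟩, h2, (e v).symm_apply_apply]
    exact h5 hx
  · apply MonoidHom.ext
    intro x
    have hx : x ∈ (⨆ v, A' v) := by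
      rw [h'.generate]
      exact Subgroup.mem_top x
    have h5 : (⨆ v, A' v) ≤ MonoidHom.eqLocus (F.comp F') (MonoidHom.id N') := by
      refine iSup_le fun v' a ha => ?_
      obtain ⟨v, rfl⟩ := σ.surjective v'
      change F (F' a) = a
      rw [h2 v ⟨a, ha⟩, h1, (e v).apply_symm_apply]
    exact h5 hx

/-- transport of a decomposition -/
theorem gp_transport {N N' V : Type} [Group N] [Group N'] {Γ : SimpleGraph V}
    {A : V → Subgroup N} (h : IsGraphProduct Γ A) (e : N ≃* N') :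
    IsGraphProduct Γ (fun v => (A v).map e.toMonoidHom) where
  generate := by
    rw [← Subgroup.map_iSup, h.generate, ← MonoidHom.range_eq_map, MonoidHom.range_eq_top]
    exact e.surjective
  comm := by
    rintro v w hvw _ ⟨a, ha, rfl⟩ _ ⟨b, hb, rfl⟩
    have := congrArg e (h.comm v w hvw a ha b hb)
    rw [map_mul, map_mul] at this
    exact this
  univ := by
    intro H _ f hf
    obtain ⟨F, hF⟩ := h.univ H (fun v => (f v).comp
      ((A v).equivMapOfInjective e.toMonoidHom e.injective).toMonoidHom) (by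
      intro v w hvw a b
      exact hf v w hvw _ _)
    refine ⟨F.comp e.symm.toMonoidHom, ?_⟩
    rintro v ⟨_, a, ha, rfl⟩
    change F (e.symm (e a)) = _
    rw [e.symm_apply_apply]
    exact hF v ⟨a, ha⟩

/-! ### primitive recursiveness -/

theorem kk_pr {α : Type} [Primcodable α] {l : α → List Pres} {i : α → ℕ} (hl : Primrec l)
    (hi : Primrec i) : Primrec fun x => kk (l x) (i x) := by
  unfold kk
  exact (Primrec.list_getD (0, [])).comp hl hi

theorem GPc_pr : Primrec GPc := by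
  unfold GPc
  have hB : Primrec fun z : Dat => z.1 := Primrec.fst
  have hL : Primrec fun z : Dat => z.2.1 := Primrec.fst.comp Primrec.snd
  have hE : Primrec fun z : Dat => z.2.2 := Primrec.snd.comp Primrec.snd
  have hn : Primrec fun z : Dat => z.2.1.length := Primrec.list_length.comp hL
  have hT : Primrec fun z : Dat => z.2.1.length * z.1 := Primrec.nat_mul.comp hn hB
  refine Primrec.pair hT ?_
  refine Primrec.list_append.comp ?_ (Primrec.list_append.comp ?_ ?_)
  · refine Primrec.list_flatMap (Primrec.list_range.comp hn) ?_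
    show Primrec fun x : Dat × ℕ => (kk x.1.2.1 x.2).2.map
      (mp (sh x.1.1 (x.1.2.1.length * x.1.1) x.2 (kk x.1.2.1 x.2).1))
    have hk : Primrec fun x : Dat × ℕ => kk x.1.2.1 x.2 :=
      kk_pr (hL.comp Primrec.fst) Primrec.snd
    refine Primrec.list_map (Primrec.snd.comp hk) ?_
    show Primrec fun y : (Dat × ℕ) × Wd => mp (sh y.1.1.1 (y.1.1.2.1.length * y.1.1.1) y.1.2
      (kk y.1.1.2.1 y.1.2).1) y.2
    refine mp_pr (σ := fun (y : (Dat × ℕ) × Wd) => sh y.1.1.1 (y.1.1.2.1.length * y.1.1.1) y.1.2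
      (kk y.1.1.2.1 y.1.2).1) ?_ Primrec.snd
    show Primrec fun w : ((Dat × ℕ) × Wd) × ℕ => sh w.1.1.1.1
      (w.1.1.1.2.1.length * w.1.1.1.1) w.1.1.2 (kk w.1.1.1.2.1 w.1.1.2).1 w.2
    unfold sh
    have p1 : Primrec fun w : ((Dat × ℕ) × Wd) × ℕ => w.1.1.1 :=
      Primrec.fst.comp (Primrec.fst.comp Primrec.fst)
    have p2 : Primrec fun w : ((Dat × ℕ) × Wd) × ℕ => w.1.1.2 :=
      Primrec.snd.comp (Primrec.fst.comp Primrec.fst)
    have p3 : Primrec fun w : ((Dat × ℕ) × Wd) × ℕ => (kk w.1.1.1.2.1 w.1.1.2).1 :=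
      Primrec.fst.comp (kk_pr (hL.comp p1) p2)
    exact Primrec.ite (Primrec.nat_lt.comp Primrec.snd p3)
      (Primrec.nat_add.comp (Primrec.nat_mul.comp p2 (hB.comp p1)) Primrec.snd)
      (Primrec.nat_add.comp (hT.comp p1) Primrec.snd)
  · refine Primrec.list_flatMap (Primrec.list_range.comp hn) ?_
    show Primrec fun x : Dat × ℕ => (List.range x.1.1).map (fun y =>
      if y < (kk x.1.2.1 x.2).1 then ([] : Wd) else [(x.2 * x.1.1 + y, true)])
    refine Primrec.list_map (Primrec.list_range.comp (hB.comp Primrec.fst)) ?_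
    show Primrec fun y : (Dat × ℕ) × ℕ => if y.2 < (kk y.1.1.2.1 y.1.2).1 then ([] : Wd) else
      [(y.1.2 * y.1.1.1 + y.2, true)]
    have p1 : Primrec fun w : (Dat × ℕ) × ℕ => w.1.1 := Primrec.fst.comp Primrec.fst
    have p2 : Primrec fun w : (Dat × ℕ) × ℕ => w.1.2 := Primrec.snd.comp Primrec.fst
    have p3 : Primrec fun w : (Dat × ℕ) × ℕ => (kk w.1.1.2.1 w.1.2).1 :=
      Primrec.fst.comp (kk_pr (hL.comp p1) p2)
    exact Primrec.ite (Primrec.nat_lt.comp Primrec.snd p3) (Primrec.const [])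
      (lt_pr (Primrec.nat_add.comp (Primrec.nat_mul.comp p2 (hB.comp p1)) Primrec.snd))
  · refine Primrec.list_flatMap hE ?_
    show Primrec fun x : Dat × (ℕ × ℕ) => (List.range x.1.1).flatMap (fun a =>
      (List.range x.1.1).map (fun b => cmw [(x.2.1 * x.1.1 + a, true)]
        [(x.2.2 * x.1.1 + b, true)]))
    refine Primrec.list_flatMap (Primrec.list_range.comp (hB.comp Primrec.fst)) ?_
    show Primrec fun x : (Dat × (ℕ × ℕ)) × ℕ => (List.range x.1.1.1).map (fun b =>
      cmw [(x.1.2.1 * x.1.1.1 + x.2, true)] [(x.1.2.2 * x.1.1.1 + b, true)])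
    refine Primrec.list_map (Primrec.list_range.comp
      (hB.comp (Primrec.fst.comp Primrec.fst))) ?_
    show Primrec fun x : ((Dat × (ℕ × ℕ)) × ℕ) × ℕ =>
      cmw [(x.1.1.2.1 * x.1.1.1.1 + x.1.2, true)] [(x.1.1.2.2 * x.1.1.1.1 + x.2, true)]
    have p1 : Primrec fun x : ((Dat × (ℕ × ℕ)) × ℕ) × ℕ => x.1.1.1.1 :=
      hB.comp (Primrec.fst.comp (Primrec.fst.comp Primrec.fst))
    have p2 : Primrec fun x : ((Dat × (ℕ × ℕ)) × ℕ) × ℕ => x.1.1.2 :=
      Primrec.snd.comp (Primrec.fst.comp Primrec.fst)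
    exact cmw_pr (lt_pr (Primrec.nat_add.comp (Primrec.nat_mul.comp (Primrec.fst.comp p2) p1)
        (Primrec.snd.comp Primrec.fst)))
      (lt_pr (Primrec.nat_add.comp (Primrec.nat_mul.comp (Primrec.snd.comp p2) p1) Primrec.snd))

end Run7.h550.IP
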