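import Pool.Agent.Run7.h550.IP.Alg

/-!
# The isomorphism problem for graph products: recursive enumerability (helper550)
-/

set_option autoImplicit false

namespace Run7.h550.IP

open Pool.Agent.Q223.IS Pool.Agent.Q32.DP Pool.Agent.Q32.DP.PROD2 Pool.Agent.Q32.DP.ALG
open Pool.Agent.Helper926
open Run7.h550.TK (IsGraphProduct FA Indec Centreless)

theorem re_good : REPred Good := by
  have h1 : REPred fun z : Dat => ∀ k ∈ z.2.1, k.1 ≤ z.1 := by
    refine RE.all_mem (p := fun (z : Dat) (k : Pres) => k.1 ≤ z.1) ?_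
      (Primrec.fst.comp Primrec.snd).to_comp
    exact RE.le (f := fun x : Dat × Pres => x.2.1) (g := fun x : Dat × Pres => x.1.1)
      (Primrec.fst.comp Primrec.snd).to_comp (Primrec.fst.comp Primrec.fst).to_comp
  have h2 : REPred fun z : Dat => ∀ e ∈ z.2.2, e.1 ≠ e.2 := by
    refine RE.all_mem (p := fun (_ : Dat) (e : ℕ × ℕ) => e.1 ≠ e.2) ?_
      (Primrec.snd.comp Primrec.snd).to_comp
    exact RE.ne (f := fun x : Dat × (ℕ × ℕ) => x.2.1) (g := fun x : Dat × (ℕ × ℕ) => x.2.2)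
      (Primrec.fst.comp Primrec.snd).to_comp (Primrec.snd.comp Primrec.snd).to_comp
  exact RE.and h1 h2

theorem re_Cp {C : Pres → Prop} (hC : REPred C) : REPred (Cp C) :=
  RE.or hC (RE.eq (f := fun x : Pres => x) (g := fun _ => z0) Computable.id (Computable.const z0))

theorem re_Ne {C : Pres → Prop} (hC : REPred C) {f : Pres × Pres →. Bool} (hf : Partrec f) :
    REPred (Ne C f) := by
  have c1 : REPred fun x : Pres × Pres => C x.1 := RE.comp (p := C) hC Computable.fst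
  have c2 : REPred fun x : Pres × Pres => C x.2 := RE.comp (p := C) hC Computable.snd
  have e1 : REPred fun x : Pres × Pres => x.1 = z0 :=
    RE.eq (f := fun x : Pres × Pres => x.1) (g := fun _ => z0) Computable.fst (Computable.const z0)
  have e2 : REPred fun x : Pres × Pres => x.2 = z0 :=
    RE.eq (f := fun x : Pres × Pres => x.2) (g := fun _ => z0) Computable.snd (Computable.const z0)
  exact RE.or (RE.and (RE.and c1 c2) (re_false hf)) (RE.or (RE.and e1 c2) (RE.and c1 e2))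

abbrev X3 : Type := (Dat × Dat) × List ℕ

theorem re_bad : REPred fun x : X3 => Bad x.1.1 x.1.2 x.2 := by
  have q1 : Primrec fun x : X3 => x.1.1 := Primrec.fst.comp Primrec.fst
  have q2 : Primrec fun x : X3 => x.1.2 := Primrec.snd.comp Primrec.fst
  have l1 : Primrec fun x : X3 => x.1.1.2.1.length :=
    Primrec.list_length.comp (Primrec.fst.comp (Primrec.snd.comp q1))
  have l2 : Primrec fun x : X3 => x.1.2.2.1.length :=
    Primrec.list_length.comp (Primrec.fst.comp (Primrec.snd.comp q2))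
  refine RE.or (RE.ne l1.to_comp l2.to_comp) ?_
  -- the projections
  have b : Primrec fun y : (X3 × ℕ) × ℕ => y.1.1 := Primrec.fst.comp Primrec.fst
  have i : Primrec fun y : (X3 × ℕ) × ℕ => y.1.2 := Primrec.snd.comp Primrec.fst
  have j : Primrec fun y : (X3 × ℕ) × ℕ => y.2 := Primrec.snd
  have s : Primrec fun y : (X3 × ℕ) × ℕ => y.1.1.2 := Primrec.snd.comp b
  have E : Primrec fun y : (X3 × ℕ) × ℕ => y.1.1.1.1.2.2 :=
    Primrec.snd.comp (Primrec.snd.comp (q1.comp b))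
  have E' : Primrec fun y : (X3 × ℕ) × ℕ => y.1.1.1.2.2.2 :=
    Primrec.snd.comp (Primrec.snd.comp (q2.comp b))
  have n : Primrec fun y : (X3 × ℕ) × ℕ => y.1.1.1.1.2.1.length := l1.comp b
  have si : Primrec fun y : (X3 × ℕ) × ℕ => y.1.1.2.getD y.1.2 0 :=
    (Primrec.list_getD 0).comp s i
  have sj : Primrec fun y : (X3 × ℕ) × ℕ => y.1.1.2.getD y.2 0 :=
    (Primrec.list_getD 0).comp s j
  refine RE.ex (p := fun (x : X3) (i : ℕ) => ∃ j : ℕ,
    (i < x.1.1.2.1.length ∧ j < x.1.1.2.1.length) ∧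
    ((i ≠ j ∧ x.2.getD i 0 = x.2.getD j 0) ∨
      ((ad x.1.1.2.2 i j ∧ ((x.2.getD i 0, x.2.getD j 0) ∉ x.1.2.2.2 ∧
        (x.2.getD j 0, x.2.getD i 0) ∉ x.1.2.2.2)) ∨
      (((i, j) ∉ x.1.1.2.2 ∧ (j, i) ∉ x.1.1.2.2) ∧
        ad x.1.2.2.2 (x.2.getD i 0) (x.2.getD j 0))))) ?_
  refine RE.ex (p := fun (x : X3 × ℕ) (j : ℕ) =>
    (x.2 < x.1.1.1.2.1.length ∧ j < x.1.1.1.2.1.length) ∧
    ((x.2 ≠ j ∧ x.1.2.getD x.2 0 = x.1.2.getD j 0) ∨
      ((ad x.1.1.1.2.2 x.2 j ∧ ((x.1.2.getD x.2 0, x.1.2.getD j 0) ∉ x.1.1.2.2.2 ∧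
        (x.1.2.getD j 0, x.1.2.getD x.2 0) ∉ x.1.1.2.2.2)) ∨
      (((x.2, j) ∉ x.1.1.1.2.2 ∧ (j, x.2) ∉ x.1.1.1.2.2) ∧
        ad x.1.1.2.2.2 (x.1.2.getD x.2 0) (x.1.2.getD j 0))))) ?_
  refine RE.and (RE.and (RE.lt i.to_comp n.to_comp) (RE.lt j.to_comp n.to_comp))
    (RE.or (RE.and (RE.ne i.to_comp j.to_comp) (RE.eq si.to_comp sj.to_comp))
      (RE.or (RE.and (RE.or ?_ ?_) (RE.and ?_ ?_)) (RE.and (RE.and ?_ ?_) (RE.or ?_ ?_))))
  · exact RE.mem_list (Primrec.pair i j).to_comp E.to_comp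
  · exact RE.mem_list (Primrec.pair j i).to_comp E.to_comp
  · exact RE.not_mem_list (Primrec.pair si sj).to_comp E'.to_comp
  · exact RE.not_mem_list (Primrec.pair sj si).to_comp E'.to_comp
  · exact RE.not_mem_list (Primrec.pair i j).to_comp E.to_comp
  · exact RE.not_mem_list (Primrec.pair j i).to_comp E.to_comp
  · exact RE.mem_list (Primrec.pair si sj).to_comp E'.to_comp
  · exact RE.mem_list (Primrec.pair sj si).to_comp E'.to_comp

abbrev X4 : Type := (Pres × Pres) × (Dat × Dat)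

theorem re_NN {C : Pres → Prop} (hC : REPred C) {f : Pres × Pres →. Bool} (hf : Partrec f) :
    REPred (NN C f) := by
  have z1 : Primrec fun x : X4 => x.2.1 := Primrec.fst.comp Primrec.snd
  have z2 : Primrec fun x : X4 => x.2.2 := Primrec.snd.comp Primrec.snd
  have p1 : Primrec fun x : X4 => x.1.1 := Primrec.fst.comp Primrec.fst
  have p2 : Primrec fun x : X4 => x.1.2 := Primrec.snd.comp Primrec.fst
  have L1 : Primrec fun x : X4 => x.2.1.2.1 := Primrec.fst.comp (Primrec.snd.comp z1)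
  have L2 : Primrec fun x : X4 => x.2.2.2.1 := Primrec.fst.comp (Primrec.snd.comp z2)
  have hCp : REPred fun x : X4 × Pres => Cp C x.2 :=
    RE.comp (p := Cp C) (re_Cp hC) Computable.snd
  refine RE.and (RE.and (RE.and ?_ ?_) (RE.and ?_ ?_)) (RE.and (RE.and ?_ ?_) ?_)
  · exact RE.comp (p := Good) re_good z1.to_comp
  · exact RE.comp (p := Good) re_good z2.to_comp
  · exact RE.all_mem (p := fun (_ : X4) k => Cp C k) hCp L1.to_comp
  · exact RE.all_mem (p := fun (_ : X4) k => Cp C k) hCp L2.to_comp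
  · exact RE.comp (p := IsoP) re_iso (f := fun x : X4 => (x.1.1, GPc x.2.1))
      (Primrec.pair p1 (GPc_pr.comp z1)).to_comp
  · exact RE.comp (p := IsoP) re_iso (f := fun x : X4 => (x.1.2, GPc x.2.2))
      (Primrec.pair p2 (GPc_pr.comp z2)).to_comp
  · refine RE.all_mem (p := fun (x : X4) (s : List ℕ) => Bad x.2.1 x.2.2 s ∨
        ∃ i, i < x.2.1.2.1.length ∧ Ne C f (kk x.2.1.2.1 i, kk x.2.2.2.1 (s.getD i 0))) ?_
      (l := fun x : X4 => allM x.2.2.2.1.length x.2.1.2.1.length)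
      (allM_pr (Primrec.list_length.comp L2) (Primrec.list_length.comp L1)).to_comp
    refine RE.or ?_ ?_
    · exact RE.comp (p := fun y : X3 => Bad y.1.1 y.1.2 y.2) re_bad
        (f := fun x : X4 × List ℕ => ((x.1.2.1, x.1.2.2), x.2))
        (Primrec.pair (Primrec.pair (z1.comp Primrec.fst) (z2.comp Primrec.fst))
          Primrec.snd).to_comp
    · refine RE.ex (p := fun (x : X4 × List ℕ) (i : ℕ) => i < x.1.2.1.2.1.length ∧
        Ne C f (kk x.1.2.1.2.1 i, kk x.1.2.2.2.1 (x.2.getD i 0))) ?_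
      have M1 : Primrec fun x : (X4 × List ℕ) × ℕ => x.1.1.2.1.2.1 :=
        L1.comp (Primrec.fst.comp Primrec.fst)
      have M2 : Primrec fun x : (X4 × List ℕ) × ℕ => x.1.1.2.2.2.1 :=
        L2.comp (Primrec.fst.comp Primrec.fst)
      refine RE.and (RE.lt Computable.snd (Primrec.list_length.comp M1).to_comp) ?_
      exact RE.comp (p := Ne C f) (re_Ne hC hf)
        (f := fun x : (X4 × List ℕ) × ℕ => (kk x.1.1.2.1.2.1 x.2,
          kk x.1.1.2.2.2.1 (x.1.2.getD x.2 0)))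
        (Primrec.pair (kk_pr M1 Primrec.snd) (kk_pr M2 ((Primrec.list_getD 0).comp
          (Primrec.snd.comp Primrec.fst) Primrec.snd))).to_comp

/-- **the isomorphism problem for graph products** -/
theorem gprods_solvable (C : Pres → Prop) (hC : REPred C) (hH : Hyp C) (hS : Solvable C) :
    Solvable (GProds C) := by
  obtain ⟨f, hf, hf'⟩ := hS
  have hN : REPred fun x : Pres × Pres => ∃ y, NN C f (x, y) :=
    RE.ex (p := fun (x : Pres × Pres) (y : Dat × Dat) => NN C f (x, y)) (re_NN hC hf)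
  refine SEARCH.solvable_of hN ?_ ?_
  · rintro p q ⟨⟨z, z'⟩, h⟩
    exact nn_sound hH hf' h
  · intro p q hp hq hpq
    exact nn_compl hf' hp hq hpq

theorem re_dec {C : Pres → Prop} (hC : REPred C) : REPred fun x : Pres × Dat =>
    (Good x.2 ∧ ∀ k ∈ x.2.2.1, Cp C k) ∧ IsoP (x.1, GPc x.2) := by
  have hCp : REPred fun x : (Pres × Dat) × Pres => Cp C x.2 :=
    RE.comp (p := Cp C) (re_Cp hC) Computable.snd
  refine RE.and (RE.and ?_ ?_) ?_
  · exact RE.comp (p := Good) re_good Computable.snd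
  · exact RE.all_mem (p := fun (_ : Pres × Dat) k => Cp C k) hCp
      (Primrec.fst.comp (Primrec.snd.comp Primrec.snd)).to_comp
  · exact RE.comp (p := IsoP) re_iso (f := fun x : Pres × Dat => (x.1, GPc x.2))
      (Primrec.pair Primrec.fst (GPc_pr.comp Primrec.snd)).to_comp

/-- the class is recursively enumerable -/
theorem gprods_re (C : Pres → Prop) (hC : REPred C) : REPred (GProds C) := by
  have h1 : REPred fun p : Pres => ∃ z : Dat, (Good z ∧ ∀ k ∈ z.2.1, Cp C k) ∧ IsoP (p, GPc z) :=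
    RE.ex (p := fun (p : Pres) (z : Dat) => (Good z ∧ ∀ k ∈ z.2.1, Cp C k) ∧
      IsoP (p, GPc z)) (re_dec hC)
  refine h1.of_eq fun p => ?_
  constructor
  · rintro ⟨z, ⟨hz, hL⟩, ⟨⟨e⟩⟩⟩
    obtain ⟨A, hA, hAi⟩ := code_gp hz
    refine ⟨_, inferInstance, gr z, _, gp_transport hA e.symm, fun i => ?_⟩
    obtain ⟨c⟩ := hAi i
    have c' := ((A i).equivMapOfInjective e.symm.toMonoidHom e.symm.injective).symm.trans c
    rcases hL _ (List.get_mem z.2.1 i) with h | h
    · exact Or.inl ⟨_, h, ⟨c'⟩⟩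
    · right
      rw [h] at c'
      obtain ⟨d⟩ := z0_cyc
      exact ⟨c'.trans d⟩
  · intro hp
    obtain ⟨z, h1, h2, h3⟩ := exists_dat hp
    exact ⟨z, ⟨h1, h2⟩, ⟨h3⟩⟩

end Run7.h550.IP
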