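import Pool.Agent.Run7.h550.IP.Cent

/-!
# Exponents at the infinite cyclic vertices of a graph product (helper550)
-/

set_option autoImplicit false

namespace Run7.h550.IP

open Run7.h550.TK Run7.h550.PK

/-- the Heisenberg group -/
structure Hs where
  x : ℤ
  y : ℤ
  z : ℤ

namespace Hs

@[ext] theorem ext' {a b : Hs} (h1 : a.x = b.x) (h2 : a.y = b.y) (h3 : a.z = b.z) : a = b := by
  cases a; cases b; simp_all

instance : Mul Hs := ⟨fun a b => ⟨a.x + b.x, a.y + b.y, a.z + b.z + a.x * b.y⟩⟩
instance : One Hs := ⟨⟨0, 0, 0⟩⟩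
instance : Inv Hs := ⟨fun a => ⟨-a.x, -a.y, -a.z + a.x * a.y⟩⟩

theorem mul_x (a b : Hs) : (a * b).x = a.x + b.x := rfl
theorem mul_y (a b : Hs) : (a * b).y = a.y + b.y := rfl
theorem mul_z (a b : Hs) : (a * b).z = a.z + b.z + a.x * b.y := rfl
theorem one_x : (1 : Hs).x = 0 := rfl
theorem one_y : (1 : Hs).y = 0 := rfl
theorem one_z : (1 : Hs).z = 0 := rfl
theorem inv_x (a : Hs) : a⁻¹.x = -a.x := rfl
theorem inv_y (a : Hs) : a⁻¹.y = -a.y := rfl
theorem inv_z (a : Hs) : a⁻¹.z = -a.z + a.x * a.y := rfl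

instance : Group Hs := Group.ofLeftAxioms
  (fun a b c => by ext <;> simp only [mul_x, mul_y, mul_z] <;> ring)
  (fun a => by ext <;> simp only [mul_x, mul_y, mul_z, one_x, one_y, one_z] <;> ring)
  (fun a => by
    ext <;> simp only [mul_x, mul_y, mul_z, inv_x, inv_y, inv_z, one_x, one_y, one_z] <;> ring)

/-- the first coordinate -/
def px : Hs →* Multiplicative ℤ where
  toFun a := Multiplicative.ofAdd a.x
  map_one' := rfl
  map_mul' _ _ := rfl

/-- the second coordinate -/
def py : Hs →* Multiplicative ℤ where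
  toFun a := Multiplicative.ofAdd a.y
  map_one' := rfl
  map_mul' _ _ := rfl

/-- the first subgroup -/
def ix : Multiplicative ℤ →* Hs where
  toFun n := ⟨n.toAdd, 0, 0⟩
  map_one' := rfl
  map_mul' a b := by ext <;> simp [mul_x, mul_y, mul_z]

/-- the second subgroup -/
def iy : Multiplicative ℤ →* Hs where
  toFun n := ⟨0, n.toAdd, 0⟩
  map_one' := rfl
  map_mul' a b := by ext <;> simp [mul_x, mul_y, mul_z]

end Hs

variable {N V : Type} [Group N] {Γ : SimpleGraph V} {A : V → Subgroup N}

/-- the exponent at a vertex with infinite cyclic vertex group -/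
noncomputable def expo (h : IsGraphProduct Γ A) (v : V) (e : A v ≃* Multiplicative ℤ) :
    N →* Multiplicative ℤ :=
  e.toMonoidHom.comp ((rr h.pairSystem {v}).codRestrict (A v) (fun x => by
    rw [← NS_single (A := A) v]
    exact rr_mem h.pairSystem {v} x))

theorem expo_self (h : IsGraphProduct Γ A) {v : V} (e : A v ≃* Multiplicative ℤ) (x : A v) :
    expo h v e x = e x := by
  change e _ = e x
  congr 1
  apply Subtype.ext
  exact rr_fix' h.pairSystem (Set.mem_singleton v) x.2

theorem expo_eq_one (h : IsGraphProduct Γ A) {v : V} (e : A v ≃* Multiplicative ℤ) {x : N}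
    (hx : rr h.pairSystem {v} x = 1) : expo h v e x = 1 := by
  change e _ = 1
  rw [← e.map_one]
  congr 1
  apply Subtype.ext
  exact hx

theorem expo_other (h : IsGraphProduct Γ A) {u v : V} (e : A v ≃* Multiplicative ℤ)
    (huv : u ≠ v) {x : N} (hx : x ∈ A u) : expo h v e x = 1 :=
  expo_eq_one h e (rr_kill h.pairSystem (Δ := {v}) (fun e1 => huv e1) hx)

theorem gp_ext (h : IsGraphProduct Γ A) {H : Type} [Group H] {f g : N →* H}
    (hfg : ∀ v, ∀ x ∈ A v, f x = g x) (x : N) : f x = g x := hom_ext_gen h.pairSystem hfg x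

/-- the exponents of commuting elements at two vertices which are not adjacent -/
theorem heis (h : IsGraphProduct Γ A) {a b : V} (hab : a ≠ b) (hadj : ¬ Γ.Adj a b)
    (ea : A a ≃* Multiplicative ℤ) (eb : A b ≃* Multiplicative ℤ) {g k : N} (hgk : g * k = k * g) :
    (expo h a ea g).toAdd * (expo h b eb k).toAdd =
      (expo h b eb g).toAdd * (expo h a ea k).toAdd := by
  classical
  let f : ∀ v, A v →* Hs := fun v =>
    if h1 : v = a then Hs.ix.comp (ea.toMonoidHom.comp
      (MulEquiv.subgroupCongr (by rw [h1])).toMonoidHom)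
    else if h2 : v = b then Hs.iy.comp (eb.toMonoidHom.comp
      (MulEquiv.subgroupCongr (by rw [h2])).toMonoidHom)
    else 1
  have hfa : ∀ x : A a, f a x = Hs.ix (ea x) := by
    intro x
    simp only [f, dif_pos]
    rfl
  have hfb : ∀ x : A b, f b x = Hs.iy (eb x) := by
    intro x
    simp only [f, dif_neg (Ne.symm hab), dif_pos]
    rfl
  have hfo : ∀ v, v ≠ a → v ≠ b → ∀ x, f v x = 1 := by
    intro v h1 h2 x
    simp only [f, dif_neg h1, dif_neg h2]
    rfl
  obtain ⟨F, hF⟩ := h.univ Hs f (by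
    intro v w hvw x y
    by_cases h1 : v = a
    · subst h1
      rw [hfo w (fun e => hvw.ne e.symm) (fun e => hadj (e ▸ hvw)) y, mul_one, one_mul]
    · by_cases h2 : v = b
      · subst h2
        rw [hfo w (fun e => hadj (e ▸ hvw.symm)) (fun e => hvw.ne e.symm) y, mul_one, one_mul]
      · rw [hfo v h1 h2, mul_one, one_mul])
  have h1 : ∀ x, Hs.px (F x) = expo h a ea x := by
    refine gp_ext (f := Hs.px.comp F) (g := expo h a ea) h fun v x hx => ?_
    change Hs.px (F x) = expo h a ea x
    have h2 : F x = f v ⟨x, hx⟩ := hF v ⟨x, hx⟩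
    rw [h2]
    by_cases h3 : v = a
    · subst h3
      rw [hfa, show expo h v ea x = ea ⟨x, hx⟩ from expo_self h ea ⟨x, hx⟩]
      rfl
    · rw [expo_other h ea h3 hx]
      by_cases h4 : v = b
      · subst h4
        rw [hfb]
        rfl
      · rw [hfo v h3 h4, map_one]
  have h2 : ∀ x, Hs.py (F x) = expo h b eb x := by
    refine gp_ext (f := Hs.py.comp F) (g := expo h b eb) h fun v x hx => ?_
    change Hs.py (F x) = expo h b eb x
    have h2 : F x = f v ⟨x, hx⟩ := hF v ⟨x, hx⟩
    rw [h2]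
    by_cases h3 : v = b
    · subst h3
      rw [hfb, show expo h v eb x = eb ⟨x, hx⟩ from expo_self h eb ⟨x, hx⟩]
      rfl
    · rw [expo_other h eb h3 hx]
      by_cases h4 : v = a
      · subst h4
        rw [hfa]
        rfl
      · rw [hfo v h4 h3, map_one]
  have h3 := congrArg F hgk
  rw [map_mul, map_mul] at h3
  have h4 := congrArg Hs.z h3
  rw [Hs.mul_z, Hs.mul_z] at h4
  rw [← h1 g, ← h1 k, ← h2 g, ← h2 k]
  change (F g).x * (F k).y = (F g).y * (F k).x
  linarith [mul_comm (F k).x (F g).y]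

end Run7.h550.IP
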