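import Pool.Agent.Run7.h550.TK.Tree

/-!
# Groups with property FA have no homomorphisms onto the integers (helper550)
-/

set_option autoImplicit false

namespace Run7.h550.IP

open Pool.Agent.Helper270.Tree Run7.h550.TK

/-- the line -/
def lineG : SimpleGraph ℤ where
  Adj i j := j = i + 1 ∨ i = j + 1
  symm := ⟨fun _ _ h => h.symm⟩
  loopless := ⟨fun i h => by
    change i = i + 1 ∨ i = i + 1 at h
    omega⟩

theorem line_adj (i j : ℤ) : lineG.Adj i j ↔ (j = i + 1 ∨ i = j + 1) := Iff.rfl

theorem line_bridge (i : ℤ) : lineG.IsBridge s(i, i + 1) := by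
  rw [SimpleGraph.isBridge_iff]
  rintro ⟨p⟩
  have key : ∀ (a b : ℤ), (lineG.deleteEdges {s(i, i + 1)}).Walk a b → a ≤ i → b ≤ i := by
    intro a b p
    induction p with
    | nil => exact fun h => h
    | @cons u v w h q ih =>
      intro hu
      apply ih
      rw [SimpleGraph.deleteEdges_adj] at h
      obtain ⟨h1, h2⟩ := h
      rcases (line_adj _ _).1 h1 with h3 | h3
      · by_contra h4
        have h5 : u = i := by omega
        have h6 : v = i + 1 := by omega
        rw [h5, h6] at h2
        exact h2 rfl
      · omega
  have := key _ _ p le_rfl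
  omega

theorem line_tree : lineG.IsTree := by
  refine ⟨⟨?_⟩, ?_⟩
  · have key : ∀ n : ℤ, lineG.Reachable 0 n := by
      intro n
      induction n using Int.induction_on with
      | zero => exact SimpleGraph.Reachable.refl 0
      | succ n ih => exact ih.trans (SimpleGraph.Adj.reachable (Or.inl rfl))
      | pred n ih =>
        refine ih.trans (SimpleGraph.Adj.reachable (Or.inr ?_))
        omega
    exact fun a b => (key a).symm.trans (key b)
  · rw [SimpleGraph.isAcyclic_iff_forall_adj_isBridge]
    intro v w h
    rcases (line_adj _ _).1 h with rfl | rfl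
    · exact line_bridge v
    · rw [Sym2.eq_swap]
      exact line_bridge w

theorem fa_int {H : Type} [Group H] (h : FA H) (f : H →* Multiplicative ℤ) (x : H) : f x = 1 := by
  let _ : MulAction H ℤ :=
    { smul := fun x n => (f x).toAdd + n
      one_smul := fun n => by
        change (f 1).toAdd + n = n
        rw [map_one, toAdd_one, zero_add]
      mul_smul := fun x y n => by
        change (f (x * y)).toAdd + n = (f x).toAdd + ((f y).toAdd + n)
        rw [map_mul, toAdd_mul, add_assoc] }
  have hs : ∀ (x : H) (n : ℤ), x • n = (f x).toAdd + n := fun _ _ => rfl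
  obtain ⟨v, hv⟩ := h ℤ lineG ⟨line_tree, fun g v w hvw => by
    rw [hs, hs]
    rcases (line_adj _ _).1 hvw with h1 | h1
    · exact Or.inl (by omega)
    · exact Or.inr (by omega), fun g v w hvw hx => by
    rw [hs, hs] at hx
    rcases (line_adj _ _).1 hvw with h1 | h1 <;> omega⟩
  have h1 := hv x
  rw [hs] at h1
  have h2 : (f x).toAdd = 0 := by omega
  exact h2

end Run7.h550.IP
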