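import Pool.Agent.Run7.h550.PK.Rigid
import Pool.Agent.Run7.h550.IP.Line

/-!
# Two decompositions of a group as a graph product: the rigid vertex groups (helper550)
-/

set_option autoImplicit false

namespace Run7.h550.IP

open Run7.h550.TK Run7.h550.PK

/-- property FA, centreless, indecomposable -/
def Rig (H : Type) [Group H] : Prop := FA H ∧ Centreless H ∧ Indec H

/-- infinite cyclic -/
def Cyc (H : Type) [Group H] : Prop := Nonempty (H ≃* Multiplicative ℤ)

variable {N V W : Type} [Group N] {Γ : SimpleGraph V} {Λ : SimpleGraph W} {A : V → Subgroup N}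
  {B : W → Subgroup N}

theorem fa_clique_mem (h : IsGraphProduct Γ A) :
    ∀ (n : ℕ) (Δ : Set V), Δ.Finite → Δ.ncard = n → Γ.IsClique Δ → (∀ v ∈ Δ, FA (A v)) →
      FA ↥(NS A Δ) := by
  intro n
  induction n with
  | zero =>
    intro Δ hf hΔ _ _
    have h1 : Δ = ∅ := (Set.ncard_eq_zero hf).1 hΔ
    subst h1
    have h2 : NS A ∅ = ⊥ := by
      rw [eq_bot_iff]
      exact NS_le fun v hv => absurd hv (Set.notMem_empty v)
    have : Subsingleton ↥(NS A ∅) := by
      rw [h2]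
      infer_instance
    exact fa_subsingleton
  | succ n ih =>
    intro Δ hf hΔ hc hg
    obtain ⟨v, hv⟩ : Δ.Nonempty := Set.nonempty_of_ncard_ne_zero (by rw [hΔ]; exact n.succ_ne_zero)
    have h1 : (Δ \ {v}).ncard = n := by
      have := Set.ncard_sdiff_singleton_add_one hv hf
      rw [hΔ] at this
      exact Nat.succ.inj this
    have g1 := ih _ (hf.subset Set.sdiff_subset) h1 (hc.subset Set.sdiff_subset)
      (fun u hu => hg u hu.1)
    obtain ⟨e⟩ := clique_iso h hc hv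
    exact fa_equiv e (fa_prod (hg v hv) g1)

theorem clique_decomp (h : IsGraphProduct Γ A) {K : Set V} (hK : Γ.IsClique K) {w : V}
    (hw : w ∈ K) {x : N} (hx : x ∈ NS A K) : ∃ a ∈ A w, ∃ b ∈ NS A (K \ {w}), x = a * b := by
  have hcm := comm_NS h hK hw
  obtain ⟨F, hF⟩ : ∃ F : ↥(A w) × ↥(NS A (K \ {w})) →* N, ∀ p, F p =
      (p.1 : N) * (p.2 : N) :=
    ⟨MonoidHom.noncommCoprod (A w).subtype (NS A (K \ {w})).subtype (fun a b =>
      hcm a a.2 b b.2), fun p => rfl⟩
  have hF3 : NS A K ≤ F.range := by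
    refine NS_le ?_
    intro u hu y hy
    by_cases huw : u = w
    · subst huw
      refine ⟨(⟨y, hy⟩, 1), ?_⟩
      rw [hF]
      exact mul_one y
    · have h4 : u ∈ K \ {w} := ⟨hu, huw⟩
      refine ⟨(1, ⟨y, le_NS h4 hy⟩), ?_⟩
      rw [hF]
      exact one_mul y
  obtain ⟨⟨⟨a, ha⟩, ⟨b, hb⟩⟩, hab⟩ := hF3 hx
  rw [hF] at hab
  exact ⟨a, ha, b, hb, hab.symm⟩

/-- subgroups with property FA of the subgroup of a clique have no infinite cyclic components -/
theorem drop (h : IsGraphProduct Γ A) (P : Set V) {H : Subgroup N} (hH : FA H) :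
    ∀ (n : ℕ) (K : Set V), K.Finite → (K \ P).ncard = n → Γ.IsClique K →
      (∀ w ∈ K, w ∉ P → Cyc (A w)) → H ≤ NS A K → H ≤ NS A (K ∩ P) := by
  intro n
  induction n with
  | zero =>
    intro K hK hn _ _ hle
    have h1 : K \ P = ∅ := (Set.ncard_eq_zero (hK.subset Set.sdiff_subset)).1 hn
    have h2 : K ∩ P = K := by
      ext x
      refine ⟨fun hx => hx.1, fun hx => ⟨hx, ?_⟩⟩
      by_contra hxP
      have : x ∈ K \ P := ⟨hx, hxP⟩
      rw [h1] at this
      exact this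
    rw [h2]
    exact hle
  | succ n ih =>
    intro K hK hn hc hcyc hle
    obtain ⟨w, hw, hwP⟩ : (K \ P).Nonempty :=
      Set.nonempty_of_ncard_ne_zero (by rw [hn]; exact n.succ_ne_zero)
    have h0 : (K \ {w}) \ P = (K \ P) \ {w} := by
      ext x
      simp only [Set.mem_sdiff, Set.mem_singleton_iff]
      tauto
    have h1 : ((K \ {w}) \ P).ncard = n := by
      rw [h0]
      have := Set.ncard_sdiff_singleton_add_one (show w ∈ K \ P from ⟨hw, hwP⟩)
        (hK.subset Set.sdiff_subset)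
      rw [hn] at this
      exact Nat.succ.inj this
    have h2 : (K \ {w}) ∩ P = K ∩ P := by
      ext x
      simp only [Set.mem_inter_iff, Set.mem_sdiff, Set.mem_singleton_iff]
      constructor
      · rintro ⟨⟨h3, -⟩, h4⟩
        exact ⟨h3, h4⟩
      · rintro ⟨h3, h4⟩
        exact ⟨⟨h3, fun e => hwP (e ▸ h4)⟩, h4⟩
    rw [← h2]
    refine ih _ (hK.subset Set.sdiff_subset) h1 (hc.subset Set.sdiff_subset)
      (fun u hu => hcyc u hu.1) fun x hx => ?_
    obtain ⟨a, ha, b, hb, hab⟩ := clique_decomp h hc hw (hle hx)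
    obtain ⟨e⟩ := hcyc w hw hwP
    let f : N →* A w := (rr h.pairSystem {w}).codRestrict (A w) (fun x => by
      rw [← NS_single (A := A) w]
      exact rr_mem h.pairSystem {w} x)
    have h3 := fa_int hH ((e.toMonoidHom.comp f).comp H.subtype) ⟨x, hx⟩
    have h4 : f x = 1 := e.injective (by rw [map_one]; exact h3)
    have h5 : rr h.pairSystem {w} x = 1 := congrArg Subtype.val h4
    have h6 : rr h.pairSystem {w} b = 1 := by
      refine NS_eq_on (f := rr h.pairSystem {w}) (g := 1) (fun u hu y hy => ?_) b hb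
      exact rr_kill h.pairSystem hu.2 hy
    rw [hab, map_mul, h6, mul_one, rr_fix' h.pairSystem (Set.mem_singleton w) ha] at h5
    rw [hab, h5, one_mul]
    exact hb

/-- a clique of rigid vertices for one decomposition is conjugate into one for the other -/
theorem two_Sb [Finite V] [Finite W] (hA : IsGraphProduct Γ A) (hB : IsGraphProduct Λ B)
    (hBm : ∀ w, Rig (B w) ∨ Cyc (B w)) {K : Set V} (hK : Γ.IsClique K)
    (hKr : ∀ v ∈ K, Rig (A v)) :
    ∃ (K' : Set W) (g : N), Λ.IsClique K' ∧ (∀ w ∈ K', Rig (B w)) ∧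
      ∀ x ∈ NS A K, g⁻¹ * x * g ∈ NS B K' := by
  have h1 := fa_clique_mem hA _ K (Set.toFinite K) rfl hK (fun v hv => (hKr v hv).1)
  obtain ⟨g, K1, hK1f, hK1, hg⟩ := fa_into' hB.pairSystem _ Set.univ Set.finite_univ rfl
    (NS A K) (by rw [NS_top hB.pairSystem]; exact le_top) h1
  have h7 : ∀ x : N, (MulAut.conj g⁻¹).toMonoidHom x = g⁻¹ * x * g := by
    intro x
    show g⁻¹ * x * g⁻¹⁻¹ = _
    rw [inv_inv]
  have h8 : FA ↥((NS A K).map (MulAut.conj g⁻¹).toMonoidHom) :=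
    fa_image ((MulAut.conj g⁻¹).toMonoidHom.subgroupMap (NS A K))
      (MonoidHom.subgroupMap_surjective _ _) h1
  have h9 : (NS A K).map (MulAut.conj g⁻¹).toMonoidHom ≤ NS B K1 := by
    rintro _ ⟨x, hx, rfl⟩
    rw [h7]
    exact hg x hx
  have h10 := drop hB {w | Rig (B w)} h8 _ K1 hK1f rfl hK1
    (fun w _ hw => (hBm w).resolve_left hw) h9
  refine ⟨K1 ∩ {w | Rig (B w)}, g, hK1.subset Set.inter_subset_left, fun w hw => hw.2,
    fun x hx => ?_⟩
  rw [← h7]
  exact h10 ⟨x, hx, rfl⟩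

theorem cyc_ne {H : Subgroup N} (h : Cyc H) : H ≠ ⊥ := by
  rintro rfl
  obtain ⟨e⟩ := h
  have h1 : e.symm (Multiplicative.ofAdd 1) = e.symm 1 := Subsingleton.elim _ _
  have h2 := e.symm.injective h1
  exact absurd (congrArg Multiplicative.toAdd h2) (by simp)

/-- **the rigid vertex groups of two decompositions are conjugate** -/
theorem two_rigid [Finite V] [Finite W] (hA : IsGraphProduct Γ A) (hB : IsGraphProduct Λ B)
    (hAm : ∀ v, Rig (A v) ∨ Cyc (A v)) (hBm : ∀ w, Rig (B w) ∨ Cyc (B w))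
    (hAne : ∀ v, A v ≠ ⊥) (hBne : ∀ w, B w ≠ ⊥) {v : V} (hv : Rig (A v)) :
    ∃ (w : W) (g : N), Rig (B w) ∧ ∀ x, x ∈ A v ↔ g⁻¹ * x * g ∈ B w := by
  have hsing : Γ.IsClique ({v} : Set V) := by
    rintro x rfl y rfl hxy
    exact absurd rfl hxy
  obtain ⟨K1, g1, c1, r1, h1⟩ := two_Sb hA hB hBm hsing (by rintro u rfl; exact hv)
  obtain ⟨K2, g2, c2, r2, h2⟩ := two_Sb hB hA hAm c1 r1
  obtain ⟨K3, g3, c3, r3, h3⟩ := two_Sb hA hB hBm c2 r2
  have a0 : ∀ x ∈ NS B K1, (g2 * g3)⁻¹ * x * (g2 * g3) ∈ NS B K3 := by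
    intro x hx
    have hy := h3 _ (h2 x hx)
    have e : (g2 * g3)⁻¹ * x * (g2 * g3) = g3⁻¹ * (g2⁻¹ * x * g2) * g3 := by group
    rw [e]
    exact hy
  have a1 : K1 ⊆ K3 := sub_of_conj hB.pairSystem hBne a0
  have a2 := conj_stab hB c3 a1 a0
  obtain ⟨θ, e3⟩ : ∃ θ : MulAut N, ∀ x, θ x = g3⁻¹ * x * g3 :=
    ⟨MulAut.conj g3⁻¹, fun x => by rw [MulAut.conj_apply, inv_inv]⟩
  have e3' : ∀ x, θ⁻¹ x = g3 * x * g3⁻¹ := by
    intro x
    apply θ.injective
    rw [MulAut.apply_inv_self, e3]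
    group
  have a3 : ∀ x ∈ NS B K1, θ⁻¹ x ∈ NS A K2 := by
    intro x hx
    have hy := h2 _ (a2.2 x hx)
    have e : g2⁻¹ * (g2 * g3 * x * (g2 * g3)⁻¹) * g2 = θ⁻¹ x := by
      rw [e3']
      group
    rwa [e] at hy
  have a4 : ∀ x ∈ NS A {v}, (g1 * g2)⁻¹ * x * (g1 * g2) ∈ NS A K2 := by
    intro x hx
    have hy := h2 _ (h1 x hx)
    have e : (g1 * g2)⁻¹ * x * (g1 * g2) = g2⁻¹ * (g1⁻¹ * x * g1) * g2 := by group
    rw [e]
    exact hy
  have a5 : ({v} : Set V) ⊆ K2 := sub_of_conj hA.pairSystem hAne a4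
  have a6 := conj_stab hA c2 a5 a4
  have a7 : ∀ x ∈ A v, θ x ∈ NS B K1 := by
    intro x hx
    rw [← NS_single (A := A) v] at hx
    have hy := a2.1 _ (h1 _ (a6.2 x hx))
    have e : (g2 * g3)⁻¹ * (g1⁻¹ * (g1 * g2 * x * (g1 * g2)⁻¹) * g1) * (g2 * g3) = θ x := by
      rw [e3]
      group
    rwa [e] at hy
  -- the factors
  have a8 : ∀ w ∈ K1, ∃ u ∈ K2, ∀ x, x ∈ A u ↔ θ x ∈ B w := by
    intro w hw
    have hw3 := a1 hw
    obtain ⟨P, hP⟩ : ∃ P : Subgroup ↥(NS A K2), P = ((B w).comap θ.toMonoidHom).subgroupOf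
      (NS A K2) := ⟨_, rfl⟩
    obtain ⟨Q, hQ⟩ : ∃ Q : Subgroup ↥(NS A K2), Q = ((NS B (K3 \ {w})).comap
      θ.toMonoidHom).subgroupOf (NS A K2) := ⟨_, rfl⟩
    have hPm : ∀ x : ↥(NS A K2), x ∈ P ↔ θ x ∈ B w := by
      intro x
      rw [hP]
      rfl
    have hQm : ∀ x : ↥(NS A K2), x ∈ Q ↔ θ x ∈ NS B (K3 \ {w}) := by
      intro x
      rw [hQ]
      rfl
    have hcm := comm_NS hB c3 hw3
    have hθ : ∀ x ∈ NS A K2, θ x ∈ NS B K3 := by
      intro x hx
      rw [e3]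
      exact h3 x hx
    have hback : ∀ y ∈ B w, θ⁻¹ y ∈ NS A K2 := fun y hy => a3 y (le_NS hw hy)
    have e : P ≃* B w := by
      refine MulEquiv.ofBijective ((θ.toMonoidHom.comp ((NS A K2).subtype.comp
        P.subtype)).codRestrict (B w) (fun x => (hPm x.1).1 x.2)) ⟨?_, ?_⟩
      · intro x y hxy
        have h4 : θ ((x : ↥(NS A K2)) : N) = θ ((y : ↥(NS A K2)) : N) := congrArg Subtype.val hxy
        exact Subtype.ext (Subtype.ext (θ.injective h4))
      · rintro ⟨y, hy⟩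
        refine ⟨⟨⟨θ⁻¹ y, hback y hy⟩, (hPm _).2 ?_⟩, ?_⟩
        · show θ (θ⁻¹ y) ∈ B w
          rwa [MulAut.apply_inv_self]
        · apply Subtype.ext
          show θ (θ⁻¹ y) = y
          rw [MulAut.apply_inv_self]
    obtain ⟨u, hu⟩ := factor_eq (gp_restr hA K2) (fun a b hab => c2 a.2 b.2
        (fun e => hab (Subtype.ext e)))
      (fun u => centreless_equiv (Subgroup.subgroupOfEquivOfLe (le_NS u.2)).symm (r2 u u.2).2.1)
      (fun u => indec_equiv (Subgroup.subgroupOfEquivOfLe (le_NS u.2)).symm (r2 u u.2).2.2)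
      (fun u hu => by
        rw [Subgroup.subgroupOf_eq_bot] at hu
        exact hAne u (hu.eq_bot_of_le (le_NS u.2)))
      (P := P) (Q := Q) (by
        rw [eq_top_iff]
        rintro ⟨x, hx⟩ _
        obtain ⟨a, ha, b, hb, hab⟩ := clique_decomp hB c3 hw3 (hθ x hx)
        have hb' : θ⁻¹ b ∈ NS A K2 := by
          have h4 : θ⁻¹ b = (θ⁻¹ a)⁻¹ * x := by
            apply θ.injective
            rw [MulAut.apply_inv_self, map_mul, map_inv, MulAut.apply_inv_self, hab]
            group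
          rw [h4]
          exact (NS A K2).mul_mem ((NS A K2).inv_mem (hback a ha)) hx
        have h5 : (⟨x, hx⟩ : ↥(NS A K2)) = ⟨θ⁻¹ a, hback a ha⟩ * ⟨θ⁻¹ b, hb'⟩ := by
          apply Subtype.ext
          apply θ.injective
          show θ x = θ (θ⁻¹ a * θ⁻¹ b)
          rw [map_mul, MulAut.apply_inv_self, MulAut.apply_inv_self, hab]
        rw [h5]
        refine Subgroup.mul_mem _ (Subgroup.mem_sup_left ?_) (Subgroup.mem_sup_right ?_)
        · rw [hPm]
          show θ (θ⁻¹ a) ∈ B w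
          rwa [MulAut.apply_inv_self]
        · rw [hQm]
          show θ (θ⁻¹ b) ∈ NS B (K3 \ {w})
          rwa [MulAut.apply_inv_self]) (by
        rw [eq_bot_iff]
        rintro x ⟨hx1, hx2⟩
        have h4 := (hPm x).1 hx1
        have h5 := (hQm x).1 hx2
        obtain ⟨r, hr1, hr2⟩ := hB.pairSystem.retract w
        have h6 : ∀ y ∈ NS B (K3 \ {w}), r y = y :=
          NS_eq_on (g := MonoidHom.id N) fun u hu y hy => hr2 u hu.2 y hy
        have h7 := h6 _ h5
        rw [hr1 _ h4] at h7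
        have h8 : (x : N) = 1 := by
          apply θ.injective
          rw [← h7, map_one]
        exact Subtype.ext h8) (by
        intro a ha b hb
        apply Subtype.ext
        apply θ.injective
        show θ ((a : N) * b) = θ ((b : N) * a)
        rw [map_mul, map_mul]
        exact hcm _ ((hPm a).1 ha) _ ((hQm b).1 hb))
      (indec_equiv e.symm (r1 w hw).2.2) (by
        intro hbot
        apply hBne w
        rw [eq_bot_iff]
        intro y hy
        have h4 : (⟨θ⁻¹ y, hback y hy⟩ : ↥(NS A K2)) ∈ P := by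
          rw [hPm]
          show θ (θ⁻¹ y) ∈ B w
          rwa [MulAut.apply_inv_self]
        rw [hbot, Subgroup.mem_bot] at h4
        have h5 : θ⁻¹ y = 1 := congrArg Subtype.val h4
        have h6 := congrArg θ h5
        rw [MulAut.apply_inv_self, map_one] at h6
        exact h6)
    refine ⟨u, u.2, fun x => ?_⟩
    constructor
    · intro hx
      have h4 : (⟨x, le_NS u.2 hx⟩ : ↥(NS A K2)) ∈ P := by
        rw [hu]
        exact hx
      exact (hPm _).1 h4
    · intro hx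
      have h5 := hback _ hx
      rw [MulAut.inv_apply_self] at h5
      have h4 : (⟨x, h5⟩ : ↥(NS A K2)) ∈ P := (hPm _).2 hx
      rw [hu] at h4
      exact h4
  -- the vertex
  obtain ⟨U, hU⟩ : ∃ U : Set V, U = {u | ∃ w ∈ K1, ∀ x, x ∈ A u ↔ θ x ∈ B w} := ⟨_, rfl⟩
  have a9 : NS B K1 ≤ (NS A U).map θ.toMonoidHom := by
    refine NS_le fun w hw y hy => ?_
    obtain ⟨u, _, hu⟩ := a8 w hw
    have huU : u ∈ U := by
      rw [hU]
      exact ⟨w, hw, hu⟩
    refine ⟨θ⁻¹ y, le_NS huU ((hu _).2 ?_), ?_⟩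
    · rwa [MulAut.apply_inv_self]
    · show θ (θ⁻¹ y) = y
      rw [MulAut.apply_inv_self]
  have a10 : ({v} : Set V) ⊆ U := by
    refine sub_of_conj hA.pairSystem hAne (c := 1) fun x hx => ?_
    rw [NS_single] at hx
    obtain ⟨y, hy, hyx⟩ := a9 (a7 x hx)
    have h4 : y = x := θ.injective hyx
    have h5 : (1 : N)⁻¹ * x * 1 = x := by group
    rw [h5, ← h4]
    exact hy
  have a11 : v ∈ U := a10 rfl
  rw [hU] at a11
  obtain ⟨w, hw1, hw⟩ := a11
  refine ⟨w, g3, r1 w hw1, fun x => ?_⟩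
  rw [hw x, e3]

end Run7.h550.IP
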